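import Pool.Agent.Lib_helper87.Tilf.Defs

/-!
Sidon sets of integers.
-/

namespace Pool.Agent.Lib_helper87.Tilf

/-- `E ⊆ ℤ` is a Sidon set: every `f ∈ C_E(𝕋)` satisfies `∑_k |f̂(k)| < ∞`. -/
def IsSidon (E : Set ℤ) : Prop :=
  ∀ f ∈ CE E, Summable (fun k : ℤ => ‖fourierCoeff (f : UnitAddCircle → ℂ) k‖)

end Pool.Agent.Lib_helper87.Tilf
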