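import Pool.Agent.Lib_helper87.Tilf.Random
import Pool.Agent.Lib_helper87.Tilf.SidonDef

/-!
If the part of `E` in some Bohr neighbourhood of `0` is a Sidon set, then `E` has the automatic
continuity property.
-/

noncomputable section

namespace Pool.Agent.Lib_helper87.Tilf

open MeasureTheory AddCircle Topology

theorem phi_sub {E : Set ℤ} (Φ : CE E →ₗ[ℂ] ℂ) (x y : CE E) : Φ (x - y) = Φ x - Φ y :=
  LinearMap.map_sub Φ x y

theorem phi_add {E : Set ℤ} (Φ : CE E →ₗ[ℂ] ℂ) (x y : CE E) : Φ (x + y) = Φ x + Φ y :=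
  LinearMap.map_add Φ x y

/-- spectral localisation in a Bohr neighbourhood of `0`, modulo differences, seen by a TILF. -/
theorem localise_finset {E : Set ℤ} (Φ : CE E →ₗ[ℂ] ℂ) (hΦ : IsTILF Φ) (s : Finset UnitAddCircle)
    {δ : ℝ} (hδ : 0 < δ) (hδ1 : δ ≤ 1 / 2) (f : CE E) :
    ∃ g : CE E, Φ f = Φ g ∧ (∀ k : ℤ, coeffL k f.1 = 0 → coeffL k g.1 = 0) ∧
      ∀ k : ℤ, (∃ α ∈ s, δ ≤ ‖k • α‖) → coeffL k g.1 = 0 := by
  classical
  induction s using Finset.induction_on with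
  | empty => exact ⟨f, rfl, fun k hk => hk, fun k ⟨α, hα, _⟩ => absurd hα (Finset.notMem_empty α)⟩
  | insert α s hα ih =>
    obtain ⟨g, hg1, hg2, hg3⟩ := ih
    obtain ⟨h, u, hh1, hh2, hh3⟩ := localise α hδ hδ1 g
    refine ⟨h, ?_, fun k hk => hh2 k (hg2 k hk), ?_⟩
    · rw [hg1, hh1]
      have h1 : Φ (h + (u - tr α u)) = Φ h + (Φ u - Φ (tr α u)) := by
        have e1 : Φ (h + (u - tr α u)) = Φ h + Φ (u - tr α u) := phi_add Φ _ _
        have e2 : Φ (u - tr α u) = Φ u - Φ (tr α u) := phi_sub Φ _ _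
        rw [e1, e2]
      rw [h1, hΦ α u (tr α u) rfl, sub_self, add_zero]
    · rintro k ⟨β, hβ, hk⟩
      rcases Finset.mem_insert.mp hβ with rfl | hβ'
      · exact hh3 k hk
      · exact hh2 k (hg3 k ⟨β, hβ', hk⟩)

theorem tilf_vanish {E : Set ℤ} (s : Finset UnitAddCircle) {δ : ℝ} (hδ : 0 < δ)
    (hS : IsSidon {k : ℤ | k ∈ E ∧ ∀ α ∈ s, ‖k • α‖ < δ}) (Φ : CE E →ₗ[ℂ] ℂ) (hΦ : IsTILF Φ)
    (f : CE E) (hf : coeffL 0 f.1 = 0) : Φ f = 0 := by
  obtain ⟨g, hg1, hg2, hg3⟩ := localise_finset Φ hΦ s (δ := min δ (1 / 2))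
    (lt_min hδ (by norm_num)) (min_le_right _ _) f
  have hgS : g.1 ∈ CE {k : ℤ | k ∈ E ∧ ∀ α ∈ s, ‖k • α‖ < δ} := by
    rw [mem_CE]
    intro k hk
    by_cases hkE : k ∈ E
    · have : ∃ α ∈ s, δ ≤ ‖k • α‖ := by
        by_contra hcon
        push Not at hcon
        exact hk ⟨hkE, hcon⟩
      obtain ⟨α, hα, h1⟩ := this
      exact hg3 k ⟨α, hα, (min_le_left _ _).trans h1⟩
    · exact g.2 k hkE
  obtain ⟨a, b, u, v, huv⟩ := two_differences g (hg2 0 hf) (hS g.1 hgS)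
  rw [hg1, huv]
  have e1 : Φ ((u - tr a u) + (v - tr b v)) = Φ (u - tr a u) + Φ (v - tr b v) := phi_add Φ _ _
  have e2 : Φ (u - tr a u) = Φ u - Φ (tr a u) := phi_sub Φ _ _
  have e3 : Φ (v - tr b v) = Φ v - Φ (tr b v) := phi_sub Φ _ _
  rw [e1, e2, e3, hΦ a u (tr a u) rfl, hΦ b v (tr b v) rfl]
  ring

/-- a linear form vanishing on the mean-zero functions is continuous. -/
theorem continuous_of_vanish {E : Set ℤ} (Φ : CE E →ₗ[ℂ] ℂ)
    (h : ∀ f : CE E, coeffL 0 f.1 = 0 → Φ f = 0) : Continuous Φ := by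
  by_cases h0 : (0 : ℤ) ∈ E
  · -- the constant function
    have hmem : (fourier 0 : C(UnitAddCircle, ℂ)) ∈ CE E := by
      rw [mem_CE]
      intro k hk
      rw [coeffL_apply, fourierCoeff_fourier, Pi.single_apply, if_neg]
      rintro rfl
      exact hk h0
    set e : CE E := ⟨fourier 0, hmem⟩ with he
    have hform : ∀ f : CE E, Φ f = coeffL 0 f.1 * Φ e := by
      intro f
      have h1 : Φ (f - (coeffL 0 f.1) • e) = 0 := by
        apply h
        show coeffL 0 (f.1 - (coeffL 0 f.1) • (fourier 0 : C(UnitAddCircle, ℂ))) = 0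
        have e0 : coeffL 0 (fourier 0 : C(UnitAddCircle, ℂ)) = 1 := by
          rw [coeffL_apply, fourierCoeff_fourier, Pi.single_eq_same]
        have e1 := (coeffL 0).map_sub f.1 ((coeffL 0 f.1) • (fourier 0 : C(UnitAddCircle, ℂ)))
        have e2 := (coeffL 0).map_smul (coeffL 0 f.1) (fourier 0 : C(UnitAddCircle, ℂ))
        rw [e1, e2, e0, smul_eq_mul, mul_one, sub_self]
      have h2 : Φ (f - (coeffL 0 f.1) • e) = Φ f - Φ ((coeffL 0 f.1) • e) := phi_sub Φ _ _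
      have h3 : Φ ((coeffL 0 f.1) • e) = (coeffL 0 f.1) • Φ e := LinearMap.map_smul Φ _ _
      rw [h2, h3, smul_eq_mul] at h1
      exact sub_eq_zero.mp h1
    have h4 : (Φ : CE E → ℂ) = fun f => coeffL 0 f.1 * Φ e := funext hform
    rw [h4]
    exact ((coeffL 0).continuous.comp continuous_subtype_val).mul continuous_const
  · have h4 : (Φ : CE E → ℂ) = fun _ => 0 := funext (fun f => h f (f.2 0 h0))
    rw [h4]
    exact continuous_const

/-- **Main positive theorem.** -/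
theorem automaticContinuity_of_sidon_near_zero {E : Set ℤ} (s : Finset UnitAddCircle) {δ : ℝ}
    (hδ : 0 < δ) (hS : IsSidon {k : ℤ | k ∈ E ∧ ∀ α ∈ s, ‖k • α‖ < δ}) :
    AutomaticContinuity E := by
  intro Φ hΦ
  exact continuous_of_vanish Φ (tilf_vanish s hδ hS Φ hΦ)

end Pool.Agent.Lib_helper87.Tilf
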