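import Pool.Agent.Lib_helper87.Tilf.Averages

/-!
Absolutely convergent cutoff functions on the circle, and spectral localisation modulo differences.
-/

noncomputable section

namespace Pool.Agent.Lib_helper87.Tilf

open MeasureTheory AddCircle Topology
open scoped FourierTransform SchwartzMap ContDiff

/-- A cutoff sequence: rapidly decreasing coefficients `c` whose Fourier series vanishes at distance
at least `δ` from `0` and is `1` at `0`. -/
theorem exists_cutoff {δ : ℝ} (hδ : 0 < δ) (hδ1 : δ ≤ 1 / 2) :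
    ∃ c : ℤ → ℂ, Summable (fun n => ‖c n‖) ∧ Summable (fun n : ℤ => |(n : ℝ)| * ‖c n‖) ∧
      (∑' n, c n = 1) ∧
      ∀ θ : UnitAddCircle, δ ≤ ‖θ‖ → ∑' n, c n * fourier n θ = 0 := by
  set b : ContDiffBump (0 : ℝ) := ⟨δ / 2, δ, by linarith, by linarith⟩ with hb
  set f0 : ℝ → ℂ := fun x => ((b x : ℝ) : ℂ) with hf0
  have hcs : HasCompactSupport f0 := b.hasCompactSupport.comp_left (g := fun r : ℝ => (r : ℂ)) (by simp)
  have hsm : ContDiff ℝ ∞ f0 := Complex.ofRealCLM.contDiff.comp b.contDiff
  set f : 𝓢(ℝ, ℂ) := hcs.toSchwartzMap hsm with hf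
  have hfx : ∀ x, f x = ((b x : ℝ) : ℂ) := fun x => rfl
  have hdecay : ∀ k : ℕ, ∃ C, ∀ n : ℤ, |(n : ℝ)| ^ k * ‖𝓕 f (n : ℝ)‖ ≤ C := by
    intro k
    obtain ⟨C, _, hC⟩ := (𝓕 f).decay k 0
    refine ⟨C, fun n => ?_⟩
    have := hC (n : ℝ)
    rw [norm_iteratedFDeriv_zero] at this
    simpa using this
  obtain ⟨C0, hC0⟩ := hdecay 0
  obtain ⟨C2, hC2⟩ := hdecay 2
  obtain ⟨C3, hC3⟩ := hdecay 3
  have hs2 : Summable (fun n : ℤ => (1 : ℝ) / |(n : ℝ)| ^ 2) := by
    have := (Real.summable_one_div_int_pow (p := 2)).mpr (by norm_num)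
    refine this.congr (fun n => ?_)
    rw [sq_abs]
  have hsum1 : Summable (fun n : ℤ => |(n : ℝ)| * ‖𝓕 f (n : ℝ)‖) := by
    refine Summable.of_nonneg_of_le (fun n => by positivity) (fun n => ?_) (hs2.mul_left C3)
    by_cases hn : n = 0
    · subst hn; simp
    · have hn' : 0 < |(n : ℝ)| := by
        rw [abs_pos]; exact_mod_cast hn
      have h3 := hC3 n
      rw [mul_one_div, le_div_iff₀ (by positivity)]
      calc |(n : ℝ)| * ‖𝓕 f (n : ℝ)‖ * |(n : ℝ)| ^ 2 = |(n : ℝ)| ^ 3 * ‖𝓕 f (n : ℝ)‖ := by ring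
        _ ≤ C3 := h3
  have hsum0 : Summable (fun n : ℤ => ‖𝓕 f (n : ℝ)‖) := by
    have h2 : Summable (fun n : ℤ => C2 * ((1 : ℝ) / |(n : ℝ)| ^ 2) + if n = 0 then ‖𝓕 f (0 : ℝ)‖ else 0) := by
      refine (hs2.mul_left C2).add ?_
      exact summable_of_ne_finset_zero (s := {0}) (fun n hn => by
        rw [Finset.mem_singleton] at hn; rw [if_neg hn])
    refine Summable.of_nonneg_of_le (fun n => by positivity) (fun n => ?_) h2
    by_cases hn : n = 0
    · subst hn; simp
    · rw [if_neg hn, add_zero]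
      have hn' : 0 < |(n : ℝ)| := by
        rw [abs_pos]; exact_mod_cast hn
      have h3 := hC2 n
      rw [mul_one_div, le_div_iff₀ (by positivity)]
      linarith
  refine ⟨fun n => 𝓕 f (n : ℝ), hsum0, hsum1, ?_, ?_⟩
  · have h := SchwartzMap.tsum_eq_tsum_fourier f 0
    have h1 : ∑' n : ℤ, f ((0 : ℝ) + n) = 1 := by
      rw [tsum_eq_single 0]
      · rw [Int.cast_zero, add_zero, hfx]
        have : b 0 = 1 := b.one_of_mem_closedBall (by
          rw [Metric.mem_closedBall, dist_self]; exact b.rIn_pos.le)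
        rw [this]; simp
      · intro n hn
        rw [zero_add, hfx]
        have : b (n : ℝ) = 0 := by
          apply b.zero_of_le_dist
          rw [dist_zero_right, Real.norm_eq_abs]
          have h1 : (1 : ℝ) ≤ |(n : ℝ)| := by
            have : (1 : ℤ) ≤ |n| := Int.one_le_abs hn
            exact_mod_cast this
          show δ ≤ |(n : ℝ)|
          linarith
        rw [this]; simp
    rw [h1] at h
    rw [h]
    refine tsum_congr (fun n => ?_)
    have : (fourier n ((0 : ℝ) : UnitAddCircle) : ℂ) = 1 := by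
      have h0 : (((0 : ℝ) : ℝ) : UnitAddCircle) = 0 := rfl
      rw [h0, fourier_eval_zero]
    rw [this, mul_one]
  · intro θ hθ
    obtain ⟨x, rfl⟩ := QuotientAddGroup.mk_surjective θ
    have h := SchwartzMap.tsum_eq_tsum_fourier f x
    have h1 : ∑' n : ℤ, f (x + n) = 0 := by
      have : ∀ n : ℤ, f (x + n) = 0 := by
        intro n
        rw [hfx]
        have h2 : b (x + n) = 0 := by
          apply b.zero_of_le_dist
          rw [dist_zero_right, Real.norm_eq_abs]
          show δ ≤ |x + n|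
          refine hθ.trans ?_
          have h3 : ((x + n : ℝ) : UnitAddCircle) = (x : UnitAddCircle) := by
            rw [AddCircle.coe_add]
            have : ((n : ℝ) : UnitAddCircle) = 0 := by
              rw [AddCircle.coe_eq_zero_iff]
              exact ⟨n, by simp⟩
            rw [this, add_zero]
          have h4 : ‖((x + n : ℝ) : UnitAddCircle)‖ ≤ |x + n| := by
            rw [UnitAddCircle.norm_eq]
            have := round_le (x + n) 0
            simpa using this
          rw [h3] at h4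
          exact h4
        rw [h2]; simp
      simp [this]
    rw [h1] at h
    exact h.symm

theorem csmul_sub (c : ℂ) (f g : C(UnitAddCircle, ℂ)) : c • (f - g) = c • f - c • g :=
  smul_sub c f g

/-- translation as a continuous linear map. -/
def trL (a : UnitAddCircle) : C(UnitAddCircle, ℂ) →L[ℂ] C(UnitAddCircle, ℂ) :=
  LinearMap.mkContinuous
    { toFun := fun f => translate a f
      map_add' := fun f g => translate_add a f g
      map_smul' := fun c f => translate_smul a c f } 1 (by
      intro f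
      simp only [LinearMap.coe_mk, AddHom.coe_mk, one_mul]
      exact norm_translate a f)

theorem trL_apply (a : UnitAddCircle) (f : C(UnitAddCircle, ℂ)) : trL a f = translate a f := rfl

/-- the partial sums `S_n f` with `f - τ_{nα} f = (1 - τ_α) S_n f`. -/
def Sn (α : UnitAddCircle) (f : C(UnitAddCircle, ℂ)) : ℤ → C(UnitAddCircle, ℂ)
  | Int.ofNat m => ∑ j ∈ Finset.range m, translate (j • α) f
  | Int.negSucc m => -∑ j ∈ Finset.range (m + 1), translate (-((j + 1) • α)) f

theorem Sn_spec (α : UnitAddCircle) (f : C(UnitAddCircle, ℂ)) (n : ℤ) :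
    Sn α f n - translate α (Sn α f n) = f - translate (n • α) f := by
  cases n with
  | ofNat m =>
    have h1 : translate α (Sn α f (Int.ofNat m)) = ∑ j ∈ Finset.range m, translate ((j + 1) • α) f := by
      rw [Sn, ← trL_apply, map_sum]
      refine Finset.sum_congr rfl (fun j _ => ?_)
      rw [trL_apply, translate_translate, succ_nsmul, add_comm]
    rw [h1, Sn, ← Finset.sum_sub_distrib,
      Finset.sum_range_sub' (fun j => translate (j • α) f) m, zero_smul, translate_zero]
    rfl
  | negSucc m =>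
    have h1 : translate α (Sn α f (Int.negSucc m)) = -∑ j ∈ Finset.range (m + 1), translate (-(j • α)) f := by
      rw [Sn, ← trL_apply, map_neg, map_sum]
      congr 1
      refine Finset.sum_congr rfl (fun j _ => ?_)
      rw [trL_apply, translate_translate]
      congr 1
      rw [succ_nsmul]; abel
    rw [h1, Sn, sub_neg_eq_add, neg_add_eq_sub, ← Finset.sum_sub_distrib,
      Finset.sum_range_sub' (fun j => translate (-(j • α)) f) (m + 1), zero_smul, neg_zero,
      translate_zero, Int.negSucc_eq]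
    congr 2
    have h2 : -((m : ℤ) + 1) • α = -(((m + 1 : ℕ) : ℤ) • α) := by
      rw [← neg_zsmul]; push_cast; rfl
    rw [h2, natCast_zsmul]

theorem norm_Sn_le (α : UnitAddCircle) (f : C(UnitAddCircle, ℂ)) (n : ℤ) :
    ‖Sn α f n‖ ≤ |(n : ℝ)| * ‖f‖ := by
  cases n with
  | ofNat m =>
    rw [Sn]
    refine (norm_sum_le _ _).trans ?_
    calc ∑ j ∈ Finset.range m, ‖translate (j • α) f‖ ≤ ∑ j ∈ Finset.range m, ‖f‖ :=
          Finset.sum_le_sum (fun j _ => norm_translate _ _)
      _ = |((Int.ofNat m : ℤ) : ℝ)| * ‖f‖ := by simp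
  | negSucc m =>
    rw [Sn, norm_neg]
    refine (norm_sum_le _ _).trans ?_
    calc ∑ j ∈ Finset.range (m + 1), ‖translate (-((j + 1) • α)) f‖
        ≤ ∑ j ∈ Finset.range (m + 1), ‖f‖ := Finset.sum_le_sum (fun j _ => norm_translate _ _)
      _ = |((Int.negSucc m : ℤ) : ℝ)| * ‖f‖ := by
        rw [Finset.sum_const, Finset.card_range, nsmul_eq_mul, Int.negSucc_eq]
        push_cast
        rw [abs_of_nonpos (by have : (0 : ℝ) ≤ m := by positivity
                              linarith)]
        ring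

theorem Sn_mem {E : Set ℤ} (α : UnitAddCircle) {f : C(UnitAddCircle, ℂ)} (hf : f ∈ CE E) (n : ℤ) :
    Sn α f n ∈ CE E := by
  cases n with
  | ofNat m => exact Submodule.sum_mem _ (fun j _ => translate_mem _ hf)
  | negSucc m => exact Submodule.neg_mem _ (Submodule.sum_mem _ (fun j _ => translate_mem _ hf))

/-- Spectral localisation modulo differences. -/
theorem localise {E : Set ℤ} (α : UnitAddCircle) {δ : ℝ} (hδ : 0 < δ) (hδ1 : δ ≤ 1 / 2)
    (f : CE E) : ∃ (g : CE E) (u : CE E), f = g + (u - tr α u) ∧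
      (∀ k : ℤ, coeffL k f.1 = 0 → coeffL k g.1 = 0) ∧
      ∀ k : ℤ, δ ≤ ‖k • α‖ → coeffL k g.1 = 0 := by
  obtain ⟨c, hc0, hc1, hc2, hc3⟩ := exists_cutoff hδ hδ1
  -- g = Σ c_n τ_{nα} f
  have hsg : Summable (fun n : ℤ => c n • translate (n • α) f.1) := by
    refine Summable.of_norm_bounded (g := fun n => ‖c n‖ * ‖f.1‖) (hc0.mul_right _) (fun n => ?_)
    rw [norm_smul]
    exact mul_le_mul_of_nonneg_left (norm_translate _ _) (norm_nonneg _)
  have hsu : Summable (fun n : ℤ => c n • Sn α f.1 n) := by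
    refine Summable.of_norm_bounded (g := fun n : ℤ => |(n : ℝ)| * ‖c n‖ * ‖f.1‖) (hc1.mul_right _) (fun n => ?_)
    rw [norm_smul]
    calc ‖c n‖ * ‖Sn α f.1 n‖ ≤ ‖c n‖ * (|(n : ℝ)| * ‖f.1‖) :=
          mul_le_mul_of_nonneg_left (norm_Sn_le _ _ _) (norm_nonneg _)
      _ = |(n : ℝ)| * ‖c n‖ * ‖f.1‖ := by ring
  have hcs : Summable c := hc0.of_norm
  set g : C(UnitAddCircle, ℂ) := ∑' n : ℤ, c n • translate (n • α) f.1 with hg
  set u : C(UnitAddCircle, ℂ) := ∑' n : ℤ, c n • Sn α f.1 n with hu
  have hgm : g ∈ CE E := by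
    have := (isClosed_CE E).mem_of_tendsto hsg.hasSum (Filter.Eventually.of_forall (fun s => ?_))
    · exact this
    · exact Submodule.sum_mem _ (fun n _ => Submodule.smul_mem _ _ (translate_mem _ f.2))
  have hum : u ∈ CE E := by
    have := (isClosed_CE E).mem_of_tendsto hsu.hasSum (Filter.Eventually.of_forall (fun s => ?_))
    · exact this
    · exact Submodule.sum_mem _ (fun n _ => Submodule.smul_mem _ _ (Sn_mem _ f.2 _))
  have hcoef : ∀ k : ℤ, coeffL k g = (∑' n : ℤ, c n * fourier n (-(k • α))) * coeffL k f.1 := by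
    intro k
    have h1 : coeffL k g = ∑' n : ℤ, coeffL k (c n • translate (n • α) f.1) :=
      (coeffL k).map_tsum hsg
    rw [h1, ← tsum_mul_right]
    refine tsum_congr (fun n => ?_)
    rw [map_smul, coeff_translate, smul_eq_mul, mul_assoc]
    congr 2
    rw [fourier_apply, fourier_apply]
    congr 2
    rw [smul_smul, smul_neg, smul_smul, neg_mul, neg_smul, mul_comm]
  have hmain : f.1 = g + (u - translate α u) := by
    have h1 : translate α u = ∑' n : ℤ, c n • translate α (Sn α f.1 n) := by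
      have h2 := (trL α).map_tsum hsu
      rw [trL_apply] at h2
      rw [h2]
      refine tsum_congr (fun n => ?_)
      rw [map_smul, trL_apply]
    have hs1 : Summable (fun n : ℤ => c n • translate α (Sn α f.1 n)) := by
      have h2 := hsu.map (trL α) (trL α).continuous
      refine h2.congr (fun n => ?_)
      simp only [Function.comp_apply]
      rw [map_smul, trL_apply]
    have h3 : u - translate α u = ∑' n : ℤ, (c n • f.1 - c n • translate (n • α) f.1) := by
      rw [h1, hu, ← hsu.tsum_sub hs1]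
      refine tsum_congr (fun n => ?_)
      rw [← csmul_sub, Sn_spec, csmul_sub]
    have hs2 : Summable (fun n : ℤ => c n • f.1) := hcs.smul_const _
    rw [h3, hs2.tsum_sub hsg, ← hg, add_sub_cancel, hcs.tsum_smul_const, hc2]
    exact (one_smul ℂ f.1).symm
  refine ⟨⟨g, hgm⟩, ⟨u, hum⟩, Subtype.ext hmain, ?_, ?_⟩
  · intro k hk
    show coeffL k g = 0
    rw [hcoef, hk, mul_zero]
  · intro k hk
    show coeffL k g = 0
    rw [hcoef, hc3 _ (by rw [norm_neg]; exact hk), zero_mul]

end Pool.Agent.Lib_helper87.Tilf
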