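import Pool.Agent.Lib_helper87.Tilf.Positive

/-!
The odd integers form a non-Sidon set with the automatic continuity property.
-/

noncomputable section

namespace Pool.Agent.Lib_helper87.Tilf

open MeasureTheory AddCircle Topology

/-- the empty set is Sidon. -/
theorem isSidon_empty : IsSidon ∅ := by
  intro f hf
  have : ∀ k : ℤ, fourierCoeff (f : UnitAddCircle → ℂ) k = 0 := fun k => hf k (Set.notMem_empty k)
  simp [this]

theorem automaticContinuity_odd : AutomaticContinuity {k : ℤ | Odd k} := by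
  refine automaticContinuity_of_sidon_near_zero {((1 / 2 : ℝ) : UnitAddCircle)} (δ := 1 / 2) (by norm_num) ?_
  have h : {k : ℤ | k ∈ {k : ℤ | Odd k} ∧
      ∀ α ∈ ({((1 / 2 : ℝ) : UnitAddCircle)} : Finset UnitAddCircle), ‖k • α‖ < 1 / 2} = ∅ := by
    rw [Set.eq_empty_iff_forall_notMem]
    rintro k ⟨⟨j, hj⟩, hk⟩
    have h1 := hk _ (Finset.mem_singleton_self _)
    have h2 : k • ((1 / 2 : ℝ) : UnitAddCircle) = ((1 / 2 : ℝ) : UnitAddCircle) := by
      have e1 : k • ((1 / 2 : ℝ) : UnitAddCircle) = ((k • (1 / 2 : ℝ) : ℝ) : UnitAddCircle) := rfl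
      rw [e1, hj]
      have e2 : (2 * j + 1) • (1 / 2 : ℝ) = (j : ℝ) + 1 / 2 := by
        rw [zsmul_eq_mul]; push_cast; ring
      rw [e2, AddCircle.coe_add]
      have : ((j : ℝ) : UnitAddCircle) = 0 := by
        rw [AddCircle.coe_eq_zero_iff]
        exact ⟨j, by simp⟩
      rw [this, zero_add]
    rw [h2] at h1
    have h3 : ‖((1 / 2 : ℝ) : UnitAddCircle)‖ = 1 / 2 := by
      have := (AddCircle.norm_coe_eq_abs_iff (1 : ℝ) (x := 1 / 2) one_ne_zero).mpr (by norm_num)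
      rw [this]; norm_num
    rw [h3] at h1
    exact lt_irrefl _ h1
  rw [h]
  exact isSidon_empty

/-- A Sidon set has a finite Sidon constant. -/
theorem sidon_bound {E : Set ℤ} (hE : IsSidon E) :
    ∃ C : ℝ, ∀ f ∈ CE E, ∀ s : Finset ℤ, ∑ k ∈ s, ‖coeffL k f‖ ≤ C * ‖f‖ := by
  set A : ℕ → Set (CE E) := fun n => {f | ∀ s : Finset ℤ, ∑ k ∈ s, ‖coeffL k f.1‖ ≤ n} with hA
  have hAc : ∀ n, IsClosed (A n) := by
    intro n
    have h1 : A n = ⋂ s : Finset ℤ, {f : CE E | ∑ k ∈ s, ‖coeffL k f.1‖ ≤ n} := by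
      ext f; simp only [hA, Set.mem_ofPred_eq, Set.mem_iInter]
    rw [h1]
    refine isClosed_iInter (fun s => isClosed_le ?_ continuous_const)
    refine continuous_finsetSum _ (fun k _ => ?_)
    exact ((coeffL k).continuous.comp continuous_subtype_val).norm
  have hcov : ⋃ n, A n = Set.univ := by
    rw [Set.eq_univ_iff_forall]
    intro f
    obtain ⟨n, hn⟩ := exists_nat_ge (∑' k : ℤ, ‖coeffL k f.1‖)
    rw [Set.mem_iUnion]
    refine ⟨n, fun s => ?_⟩
    exact ((hE f.1 f.2).sum_le_tsum s (fun k _ => norm_nonneg _)).trans hn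
  obtain ⟨n, f₀, hf₀⟩ := nonempty_interior_of_iUnion_of_closed hAc hcov
  rw [mem_interior_iff_mem_nhds] at hf₀
  obtain ⟨r, hr, hball⟩ : ∃ r > 0, ∀ f : CE E, ‖f.1 - f₀.1‖ < r → f ∈ A n := by
    obtain ⟨r, hr, h⟩ := Metric.mem_nhds_iff.mp hf₀
    refine ⟨r, hr, fun f hf => h ?_⟩
    rw [Metric.mem_ball, Subtype.dist_eq, dist_eq_norm]
    exact hf
  refine ⟨4 * n / r, fun f hf s => ?_⟩
  by_cases hf0 : f = 0
  · subst hf0; simp
  have hfn : 0 < ‖f‖ := norm_pos_iff.mpr hf0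
  set t : ℂ := ((r / (2 * ‖f‖) : ℝ) : ℂ) with ht
  have htn : ‖t‖ = r / (2 * ‖f‖) := by
    rw [ht, Complex.norm_real, Real.norm_eq_abs, abs_of_pos (by positivity)]
  have h1 : ‖t • f‖ < r := by
    rw [norm_smul, htn]
    rw [div_mul_eq_mul_div, div_lt_iff₀ (by positivity)]
    nlinarith
  have h2 := hball ⟨f₀.1 + t • f, Submodule.add_mem _ f₀.2 (Submodule.smul_mem _ t hf)⟩ (by simpa using h1) s
  have h3 := hball f₀ (by simpa using hr) s
  simp only at h2
  have h4 : ∑ k ∈ s, ‖coeffL k (t • f)‖ ≤ 2 * n := by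
    calc ∑ k ∈ s, ‖coeffL k (t • f)‖ ≤ ∑ k ∈ s, (‖coeffL k (f₀.1 + t • f)‖ + ‖coeffL k f₀.1‖) := by
          refine Finset.sum_le_sum (fun k _ => ?_)
          have : coeffL k (t • f) = coeffL k (f₀.1 + t • f) - coeffL k f₀.1 := by
            rw [← map_sub, add_sub_cancel_left]
          rw [this]
          exact norm_sub_le _ _
      _ ≤ 2 * n := by
        rw [Finset.sum_add_distrib]
        linarith
  have h5 : ∑ k ∈ s, ‖coeffL k (t • f)‖ = ‖t‖ * ∑ k ∈ s, ‖coeffL k f‖ := by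
    rw [Finset.mul_sum]
    refine Finset.sum_congr rfl (fun k _ => ?_)
    rw [map_smul, norm_smul]
  rw [h5, htn] at h4
  rw [div_mul_eq_mul_div, div_le_iff₀ (by positivity)] at h4
  rw [div_mul_eq_mul_div, le_div_iff₀ hr]
  linarith

/-- Rudin–Shapiro pairs with odd spectrum. -/
def rs : ℕ → C(UnitAddCircle, ℂ) × C(UnitAddCircle, ℂ)
  | 0 => (fourier 1, fourier 1)
  | m + 1 => ((rs m).1 + fourier (2 ^ (m + 1)) * (rs m).2, (rs m).1 - fourier (2 ^ (m + 1)) * (rs m).2)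

theorem coeff_mul_fourier (k N : ℤ) (g : C(UnitAddCircle, ℂ)) :
    coeffL k (fourier N * g) = coeffL (k - N) g := by
  rw [coeffL_apply, coeffL_apply, fourierCoeff, fourierCoeff]
  congr 1
  ext t
  rw [ContinuousMap.mul_apply, smul_eq_mul, smul_eq_mul, ← mul_assoc]
  congr 1
  rw [← fourier_add]
  congr 2
  ring

theorem rs_coeff (m : ℕ) : ∀ k : ℤ,
    ((∃ j : ℕ, j < 2 ^ m ∧ k = 2 * j + 1) → ‖coeffL k (rs m).1‖ = 1 ∧ ‖coeffL k (rs m).2‖ = 1) ∧
    ((¬ ∃ j : ℕ, j < 2 ^ m ∧ k = 2 * j + 1) → coeffL k (rs m).1 = 0 ∧ coeffL k (rs m).2 = 0) := by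
  induction m with
  | zero =>
    intro k
    have h1 : coeffL k (fourier 1 : C(UnitAddCircle, ℂ)) = if k = 1 then 1 else 0 := by
      rw [coeffL_apply, fourierCoeff_fourier, Pi.single_apply]
    constructor
    · rintro ⟨j, hj, rfl⟩
      have : j = 0 := by simpa using hj
      subst this
      simp only [rs]
      rw [h1]; simp
    · intro h
      have : k ≠ 1 := by
        rintro rfl
        exact h ⟨0, by simp, by simp⟩
      simp only [rs]
      rw [h1, if_neg this]; simp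
  | succ m ih =>
    intro k
    have hpow : ((2 : ℤ) ^ (m + 1)) = 2 * ((2 ^ m : ℕ) : ℤ) := by push_cast; ring
    have e1 : coeffL k (rs (m + 1)).1 = coeffL k (rs m).1 + coeffL (k - 2 ^ (m + 1)) (rs m).2 := by
      simp only [rs]
      rw [map_add, coeff_mul_fourier]
    have e2 : coeffL k (rs (m + 1)).2 = coeffL k (rs m).1 - coeffL (k - 2 ^ (m + 1)) (rs m).2 := by
      simp only [rs]
      rw [map_sub, coeff_mul_fourier]
    constructor
    · rintro ⟨j, hj, rfl⟩
      by_cases hjm : j < 2 ^ m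
      · have a1 := ((ih (2 * j + 1)).1 ⟨j, hjm, rfl⟩).1
        have a2 := ((ih (2 * j + 1 - 2 ^ (m + 1))).2 (by
          rintro ⟨i, hi, h⟩
          rw [hpow] at h
          omega)).2
        rw [e1, e2, a2, add_zero, sub_zero]
        exact ⟨a1, a1⟩
      · have a1 := ((ih (2 * j + 1)).2 (by
          rintro ⟨i, hi, h⟩
          omega)).1
        have a2 := ((ih (2 * j + 1 - 2 ^ (m + 1))).1 ⟨j - 2 ^ m, by
          rw [pow_succ] at hj; omega, by
          rw [hpow]
          have : 2 ^ m ≤ j := not_lt.mp hjm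
          push_cast [Nat.cast_sub this]
          ring⟩).2
        rw [e1, e2, a1, zero_add, zero_sub, norm_neg]
        exact ⟨a2, a2⟩
    · intro h
      have a1 := ((ih k).2 (by
        rintro ⟨i, hi, rfl⟩
        exact h ⟨i, by rw [pow_succ]; omega, rfl⟩)).1
      have a2 := ((ih (k - 2 ^ (m + 1))).2 (by
        rintro ⟨i, hi, h'⟩
        apply h
        refine ⟨i + 2 ^ m, by rw [pow_succ]; omega, ?_⟩
        rw [hpow] at h'
        push_cast
        push_cast at h'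
        linarith)).2
      rw [e1, e2, a1, a2]
      simp

theorem rs_norm (m : ℕ) (x : UnitAddCircle) : ‖(rs m).1 x‖ ^ 2 + ‖(rs m).2 x‖ ^ 2 = 2 ^ (m + 1) := by
  induction m with
  | zero =>
    simp only [rs]
    have : ‖(fourier 1 x : ℂ)‖ = 1 := by rw [fourier_apply]; exact Circle.norm_coe _
    rw [this]; norm_num
  | succ m ih =>
    simp only [rs, ContinuousMap.add_apply, ContinuousMap.sub_apply, ContinuousMap.mul_apply]
    have h1 : ‖(fourier (2 ^ (m + 1)) x : ℂ)‖ = 1 := by rw [fourier_apply]; exact Circle.norm_coe _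
    have h2 := parallelogram_law_with_norm ℝ ((rs m).1 x) (fourier (2 ^ (m + 1)) x * (rs m).2 x)
    rw [norm_mul, h1, one_mul] at h2
    have h3 : ‖(rs m).1 x + fourier (2 ^ (m + 1)) x * (rs m).2 x‖ ^ 2
        + ‖(rs m).1 x - fourier (2 ^ (m + 1)) x * (rs m).2 x‖ ^ 2
        = 2 * (‖(rs m).1 x‖ ^ 2 + ‖(rs m).2 x‖ ^ 2) := by
      nlinarith [h2]
    rw [h3, ih]; ring

theorem not_isSidon_odd : ¬ IsSidon {k : ℤ | Odd k} := by
  intro h
  obtain ⟨C, hC⟩ := sidon_bound h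
  -- for every m: 2^m ≤ C * sqrt (2^(m+1))
  have hm : ∀ m : ℕ, (2 : ℝ) ^ m ≤ C * Real.sqrt (2 ^ (m + 1)) := by
    intro m
    have hmem : (rs m).1 ∈ CE {k : ℤ | Odd k} := by
      rw [mem_CE]
      intro k hk
      refine ((rs_coeff m k).2 ?_).1
      rintro ⟨j, _, rfl⟩
      exact hk ⟨j, rfl⟩
    have hnorm : ‖(rs m).1‖ ≤ Real.sqrt (2 ^ (m + 1)) := by
      rw [ContinuousMap.norm_le _ (Real.sqrt_nonneg _)]
      intro x
      apply Real.le_sqrt_of_sq_le
      have := rs_norm m x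
      nlinarith [sq_nonneg ‖(rs m).2 x‖]
    set s : Finset ℤ := (Finset.range (2 ^ m)).image (fun j : ℕ => 2 * (j : ℤ) + 1) with hs
    have hcard : s.card = 2 ^ m := by
      rw [hs, Finset.card_image_of_injective, Finset.card_range]
      intro i j hij
      simp only at hij
      omega
    have h1 := hC _ hmem s
    have h2 : ∑ k ∈ s, ‖coeffL k (rs m).1‖ = 2 ^ m := by
      have : ∀ k ∈ s, ‖coeffL k (rs m).1‖ = 1 := by
        intro k hk
        rw [hs, Finset.mem_image] at hk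
        obtain ⟨j, hj, rfl⟩ := hk
        exact ((rs_coeff m _).1 ⟨j, Finset.mem_range.mp hj, rfl⟩).1
      rw [Finset.sum_congr rfl this, Finset.sum_const, hcard]
      simp
    rw [h2] at h1
    have hC0 : 0 ≤ C := by
      by_contra hneg
      push Not at hneg
      have : C * ‖(rs m).1‖ ≤ 0 := mul_nonpos_of_nonpos_of_nonneg hneg.le (norm_nonneg _)
      have : (0 : ℝ) < 2 ^ m := by positivity
      linarith
    exact h1.trans (mul_le_mul_of_nonneg_left hnorm hC0)
  -- square and conclude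
  obtain ⟨m, hm2⟩ := pow_unbounded_of_one_lt (2 * C ^ 2) (one_lt_two (α := ℝ))
  have h3 := hm m
  have h4 : ((2 : ℝ) ^ m) ^ 2 ≤ (C * Real.sqrt (2 ^ (m + 1))) ^ 2 := by
    apply pow_le_pow_left₀ (by positivity) h3
  rw [mul_pow, Real.sq_sqrt (by positivity), pow_succ (2 : ℝ) m] at h4
  have h5 : (0 : ℝ) < 2 ^ m := by positivity
  have h6 : (2 : ℝ) ^ m * 2 ^ m ≤ (2 * C ^ 2) * 2 ^ m := by nlinarith
  have h7 : (2 : ℝ) ^ m ≤ 2 * C ^ 2 := le_of_mul_le_mul_right h6 h5
  linarith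

end Pool.Agent.Lib_helper87.Tilf
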