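import Pool.Agent.Lib_helper87.Tilf.Cutoff

/-!
Functions with absolutely convergent Fourier series and zero mean are sums of two differences
(random translations, after Meisters and Schmidt).
-/

noncomputable section

namespace Pool.Agent.Lib_helper87.Tilf

open MeasureTheory AddCircle Topology
open scoped ENNReal

/-- the weight `‖θ‖^{-1/2}` on the circle (with value `∞` at `0`). -/
def wt (θ : UnitAddCircle) : ℝ≥0∞ := (ENNReal.ofReal ‖θ‖) ^ (-(1 / 2) : ℝ)

theorem measurable_wt : Measurable wt := by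
  unfold wt
  exact (ENNReal.measurable_ofReal.comp continuous_norm.measurable).pow_const _

theorem lintegral_wt_lt_top : ∫⁻ θ : UnitAddCircle, wt θ < ⊤ := by
  rw [← UnitAddCircle.lintegral_preimage (-(1 / 2))]
  have h1 : IntervalIntegrable (fun x : ℝ => |x| ^ (-(1 / 2) : ℝ)) volume 0 (1 / 2) := by
    have h := intervalIntegral.intervalIntegrable_rpow' (a := 0) (b := 1 / 2) (r := -(1 / 2)) (by norm_num)
    refine h.congr ?_
    intro x hx
    rw [Set.uIoc_of_le (by norm_num)] at hx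
    show x ^ (-(1 / 2) : ℝ) = |x| ^ (-(1 / 2) : ℝ)
    rw [abs_of_pos hx.1]
  have h2 : IntervalIntegrable (fun x : ℝ => |x| ^ (-(1 / 2) : ℝ)) volume (-(1 / 2)) 0 := by
    have h := (IntervalIntegrable.iff_comp_neg (f := fun x : ℝ => |x| ^ (-(1 / 2) : ℝ)) (a := 0) (b := 1 / 2) (by simp)).mp h1
    simp only [abs_neg, neg_zero] at h
    exact h.symm
  have h3 := h2.trans h1
  have h4 : IntegrableOn (fun x : ℝ => |x| ^ (-(1 / 2) : ℝ)) (Set.Ioc (-(1 / 2)) (1 / 2)) volume := h3.1
  have h5 : ∫⁻ x in Set.Ioc (-(1 / 2) : ℝ) (-(1 / 2) + 1), wt (x : UnitAddCircle)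
      = ∫⁻ x in Set.Ioc (-(1 / 2) : ℝ) (1 / 2), ‖|x| ^ (-(1 / 2) : ℝ)‖ₑ := by
    have e : (-(1 / 2) : ℝ) + 1 = 1 / 2 := by norm_num
    rw [e]
    apply setLIntegral_congr_fun_ae measurableSet_Ioc
    have h0 : ∀ᵐ x : ℝ, x ≠ 0 := by
      have : (volume : Measure ℝ) {(0 : ℝ)} = 0 := by simp
      exact compl_mem_ae_iff.mpr this
    filter_upwards [h0] with x hx0 hx
    have hn : ‖(x : UnitAddCircle)‖ = |x| := by
      rw [AddCircle.norm_coe_eq_abs_iff (1 : ℝ) one_ne_zero, abs_one, abs_le]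
      exact ⟨hx.1.le, hx.2⟩
    rw [wt, hn]
    have hpos : 0 < |x| := abs_pos.mpr hx0
    rw [ENNReal.ofReal_rpow_of_pos hpos, Real.enorm_eq_ofReal (by positivity)]
  rw [h5]
  exact h4.2

theorem lintegral_wt_zsmul {k : ℤ} (hk : k ≠ 0) :
    ∫⁻ θ : UnitAddCircle, wt (k • θ) = ∫⁻ θ : UnitAddCircle, wt θ := by
  have h : MeasurePreserving (fun θ : UnitAddCircle => k • θ) volume volume :=
    Measure.measurePreserving_zsmul volume hk
  exact h.lintegral_comp measurable_wt

/-- one step of the random choice. -/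
theorem exists_good (c : ℤ → ℝ≥0∞) (hc : ∑' k, c k ≠ ⊤) (h0 : c 0 = 0) :
    ∃ a : UnitAddCircle, ∑' k : ℤ, c k * wt (k • a) ≠ ⊤ := by
  by_contra hcon
  push Not at hcon
  have h1 : ∫⁻ a : UnitAddCircle, ∑' k : ℤ, c k * wt (k • a) = ⊤ := by
    simp only [hcon]
    rw [lintegral_const]
    simp
  have hmeas : ∀ k : ℤ, Measurable (fun a : UnitAddCircle => wt (k • a)) := by
    intro k
    exact measurable_wt.comp (continuous_zsmul k).measurable
  rw [lintegral_tsum (fun k => ((hmeas k).const_mul (c k)).aemeasurable)] at h1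
  have h2 : ∀ k : ℤ, ∫⁻ a : UnitAddCircle, c k * wt (k • a) = c k * ∫⁻ θ : UnitAddCircle, wt θ := by
    intro k
    rw [lintegral_const_mul _ (hmeas k)]
    by_cases hk : k = 0
    · subst hk; rw [h0]; simp
    · rw [lintegral_wt_zsmul hk]
  simp only [h2] at h1
  rw [ENNReal.tsum_mul_right] at h1
  exact (ENNReal.mul_ne_top hc lintegral_wt_lt_top.ne) h1

theorem four_norm_le (θ : UnitAddCircle) : 4 * ‖θ‖ ≤ ‖(1 : ℂ) - fourier 1 θ‖ := by
  -- representative in [-1/2, 1/2]
  obtain ⟨x, rfl⟩ := QuotientAddGroup.mk_surjective θ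
  have hperiod : ((x - round x : ℝ) : UnitAddCircle) = (x : UnitAddCircle) := by
    rw [AddCircle.coe_sub]
    have : ((round x : ℝ) : UnitAddCircle) = 0 := by
      rw [AddCircle.coe_eq_zero_iff]
      exact ⟨round x, by simp⟩
    rw [this, sub_zero]
  set y : ℝ := x - round x with hy
  have hyabs : |y| ≤ 1 / 2 := abs_sub_round x
  have hgoal : 4 * ‖(y : UnitAddCircle)‖ ≤ ‖(1 : ℂ) - fourier 1 (y : UnitAddCircle)‖ := by
    have hn : ‖(y : UnitAddCircle)‖ = |y| := by
      rw [AddCircle.norm_coe_eq_abs_iff (1 : ℝ) one_ne_zero, abs_one]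
      exact hyabs
    rw [hn, fourier_coe_apply]
    have h1 : Complex.exp (2 * Real.pi * Complex.I * ((1 : ℤ) : ℂ) * (y : ℂ) / ((1 : ℝ) : ℂ))
        = Complex.exp (Complex.I * ((2 * Real.pi * y : ℝ) : ℂ)) := by
      congr 1; push_cast; ring
    rw [h1, norm_sub_rev, Complex.norm_exp_I_mul_ofReal_sub_one, Real.norm_eq_abs, abs_mul, abs_two]
    have h2 : 2 * Real.pi * y / 2 = Real.pi * y := by ring
    rw [h2]
    have h3 : |Real.sin (Real.pi * y)| = Real.sin (Real.pi * |y|) := by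
      rcases le_or_gt 0 y with h | h
      · rw [abs_of_nonneg h, abs_of_nonneg]
        apply Real.sin_nonneg_of_nonneg_of_le_pi (by positivity)
        rw [abs_of_nonneg h] at hyabs
        nlinarith [Real.pi_pos]
      · rw [abs_of_neg h, mul_neg, Real.sin_neg, abs_of_nonpos]
        have h4 : 0 ≤ Real.sin (Real.pi * (-y)) := by
          apply Real.sin_nonneg_of_nonneg_of_le_pi
          · have : 0 ≤ -y := by linarith
            positivity
          · rw [abs_of_neg h] at hyabs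
            nlinarith [Real.pi_pos]
        rw [mul_neg, Real.sin_neg] at h4
        linarith
    rw [h3]
    have h5 := Real.mul_le_sin (x := Real.pi * |y|) (by positivity) (by nlinarith [Real.pi_pos])
    have h6 : 2 / Real.pi * (Real.pi * |y|) = 2 * |y| := by
      have := Real.pi_ne_zero
      field_simp
    rw [h6] at h5
    linarith
  rw [hperiod] at hgoal
  exact hgoal

theorem fourier_neg_zsmul (k : ℤ) (a : UnitAddCircle) : (fourier (-k) a : ℂ) = fourier 1 (-(k • a)) := by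
  rw [fourier_apply, fourier_apply, one_zsmul, neg_smul]

theorem translate_fourier (k : ℤ) (a : UnitAddCircle) :
    translate a (fourier k : C(UnitAddCircle, ℂ)) = (fourier (-k) a : ℂ) • (fourier k : C(UnitAddCircle, ℂ)) := by
  ext t
  rw [translate_apply, ContinuousMap.smul_apply, smul_eq_mul, fourier_apply, fourier_apply,
    fourier_apply, smul_sub, sub_eq_add_neg, toCircle_add, Circle.coe_mul, mul_comm, neg_smul]

/-- A function with absolutely summable Fourier coefficients and zero mean is a sum of two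
differences. -/
theorem two_differences {E : Set ℤ} (f : CE E) (h0 : coeffL 0 f.1 = 0)
    (hs : Summable (fun k => ‖coeffL k f.1‖)) :
    ∃ (a b : UnitAddCircle) (u v : CE E), f = (u - tr a u) + (v - tr b v) := by
  set c : ℤ → ℂ := fun k => coeffL k f.1 with hc
  have hc0 : c 0 = 0 := h0
  have hct : ∑' k, ‖c k‖ₑ ≠ ⊤ := tsum_enorm_ne_top_iff_summable_norm.mpr hs
  obtain ⟨a, ha⟩ := exists_good (fun k => ‖c k‖ₑ) hct (by simp [hc0])
  obtain ⟨b, hb⟩ := exists_good (fun k => ‖c k‖ₑ * wt (k • a)) ha (by simp [hc0])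
  -- key pointwise estimate
  have hkey : ∀ (x y : UnitAddCircle) (z : ℂ), ‖z‖ₑ * wt x * wt y ≠ ⊤ → ‖y‖ ≤ ‖x‖ →
      (z * (1 - fourier 1 (-x))⁻¹ * (1 - fourier 1 (-x)) = z) ∧
      ‖z * (1 - fourier 1 (-x))⁻¹‖ₑ ≤ ‖z‖ₑ * wt x * wt y := by
    intro x y z hfin hyx
    by_cases hz : z = 0
    · subst hz; simp
    · have hz' : ‖z‖ₑ ≠ 0 := by simpa using hz
      have hwx0 : wt x ≠ 0 := by
        unfold wt
        rw [ENNReal.rpow_neg]
        apply ENNReal.inv_ne_zero.mpr
        exact ENNReal.rpow_ne_top_of_nonneg (by norm_num) ENNReal.ofReal_ne_top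
      have hwy : wt y ≠ ⊤ := by
        intro h
        apply hfin
        rw [h, ENNReal.mul_top]
        exact mul_ne_zero hz' hwx0
      have hy : 0 < ‖y‖ := by
        rcases (norm_nonneg y).lt_or_eq with h | h
        · exact h
        · exfalso; apply hwy
          unfold wt
          rw [← h]
          rw [ENNReal.ofReal_zero, ENNReal.zero_rpow_of_neg (by norm_num)]
      have hx : 0 < ‖x‖ := lt_of_lt_of_le hy hyx
      have h1 : 4 * ‖x‖ ≤ ‖(1 : ℂ) - fourier 1 (-x)‖ := by
        have := four_norm_le (-x)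
        rwa [norm_neg] at this
      have hne : (1 : ℂ) - fourier 1 (-x) ≠ 0 := by
        intro h
        rw [h, norm_zero] at h1
        linarith
      refine ⟨by rw [mul_assoc, inv_mul_cancel₀ hne, mul_one], ?_⟩
      have hwxr : wt x = ENNReal.ofReal (‖x‖ ^ (-(1 / 2) : ℝ)) := by
        unfold wt; rw [ENNReal.ofReal_rpow_of_pos hx]
      have hwyr : wt y = ENNReal.ofReal (‖y‖ ^ (-(1 / 2) : ℝ)) := by
        unfold wt; rw [ENNReal.ofReal_rpow_of_pos hy]
      rw [hwxr, hwyr, enorm_mul, mul_assoc]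
      refine mul_le_mul_right ?_ _
      rw [← ENNReal.ofReal_mul (by positivity), ← ofReal_norm]
      apply ENNReal.ofReal_le_ofReal
      rw [norm_inv]
      have h2 : ‖x‖ ^ (-(1 / 2) : ℝ) ≤ ‖y‖ ^ (-(1 / 2) : ℝ) :=
        Real.rpow_le_rpow_of_nonpos hy hyx (by norm_num)
      have h3 : ‖x‖⁻¹ = ‖x‖ ^ (-(1 / 2) : ℝ) * ‖x‖ ^ (-(1 / 2) : ℝ) := by
        rw [← Real.rpow_add hx, ← Real.rpow_neg_one]
        norm_num
      have h4 : ‖(1 : ℂ) - fourier 1 (-x)‖⁻¹ ≤ ‖x‖⁻¹ := by
        apply inv_anti₀ hx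
        linarith
      calc ‖(1 : ℂ) - fourier 1 (-x)‖⁻¹ ≤ ‖x‖⁻¹ := h4
        _ = ‖x‖ ^ (-(1 / 2) : ℝ) * ‖x‖ ^ (-(1 / 2) : ℝ) := h3
        _ ≤ ‖x‖ ^ (-(1 / 2) : ℝ) * ‖y‖ ^ (-(1 / 2) : ℝ) := by
          apply mul_le_mul_of_nonneg_left h2 (by positivity)
  have hfin : ∀ k : ℤ, ‖c k‖ₑ * wt (k • a) * wt (k • b) ≠ ⊤ := fun k => ENNReal.ne_top_of_tsum_ne_top hb k
  -- coefficients
  set p : ℤ → ℂ := fun k => if ‖k • b‖ ≤ ‖k • a‖ then c k * (1 - fourier 1 (-(k • a)))⁻¹ else 0 with hp
  set q : ℤ → ℂ := fun k => if ‖k • b‖ ≤ ‖k • a‖ then 0 else c k * (1 - fourier 1 (-(k • b)))⁻¹ with hq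
  have hpn : ∀ k, ‖p k‖ₑ ≤ ‖c k‖ₑ * wt (k • a) * wt (k • b) := by
    intro k
    simp only [hp]
    split_ifs with h
    · exact (hkey _ _ _ (hfin k) h).2
    · simp
  have hqn : ∀ k, ‖q k‖ₑ ≤ ‖c k‖ₑ * wt (k • a) * wt (k • b) := by
    intro k
    simp only [hq]
    split_ifs with h
    · simp
    · have h' := (hkey (k • b) (k • a) (c k) (by rw [mul_right_comm]; exact hfin k) (le_of_not_ge h)).2
      rw [mul_right_comm] at h'
      exact h'
  have hps : Summable (fun k => ‖p k‖) := by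
    rw [← tsum_enorm_ne_top_iff_summable_norm]
    exact ne_top_of_le_ne_top hb (ENNReal.tsum_le_tsum hpn)
  have hqs : Summable (fun k => ‖q k‖) := by
    rw [← tsum_enorm_ne_top_iff_summable_norm]
    exact ne_top_of_le_ne_top hb (ENNReal.tsum_le_tsum hqn)
  have hsum : ∀ k, c k = p k * (1 - fourier 1 (-(k • a))) + q k * (1 - fourier 1 (-(k • b))) := by
    intro k
    simp only [hp, hq]
    split_ifs with h
    · rw [(hkey _ _ _ (hfin k) h).1, zero_mul, add_zero]
    · rw [(hkey (k • b) (k • a) (c k) (by rw [mul_right_comm]; exact hfin k) (le_of_not_ge h)).1,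
        zero_mul, zero_add]
  -- the functions
  have hseries : ∀ w : ℤ → ℂ, Summable (fun k => ‖w k‖) →
      Summable (fun k : ℤ => w k • (fourier k : C(UnitAddCircle, ℂ))) := by
    intro w hw
    refine Summable.of_norm_bounded (g := fun k => ‖w k‖) hw (fun k => ?_)
    rw [norm_smul]
    have : ‖(fourier k : C(UnitAddCircle, ℂ))‖ = 1 := fourier_norm k
    rw [this, mul_one]
  have hmem : ∀ w : ℤ → ℂ, (∀ k, c k = 0 → w k = 0) → Summable (fun k => ‖w k‖) →
      (∑' k : ℤ, w k • (fourier k : C(UnitAddCircle, ℂ))) ∈ CE E := by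
    intro w hw0 hw
    rw [mem_CE]
    intro j hj
    rw [(coeffL j).map_tsum (hseries w hw)]
    have h1 : ∀ k : ℤ, coeffL j (w k • (fourier k : C(UnitAddCircle, ℂ))) = 0 := by
      intro k
      rw [map_smul, coeffL_apply, fourierCoeff_fourier, Pi.single_apply, smul_eq_mul]
      split_ifs with h
      · subst h
        rw [hw0 _ (f.2 _ hj), zero_mul]
      · rw [mul_zero]
    simp [h1]
  have htr : ∀ (w : ℤ → ℂ) (s : UnitAddCircle), Summable (fun k => ‖w k‖) →
      (∑' k : ℤ, w k • (fourier k : C(UnitAddCircle, ℂ)))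
        - translate s (∑' k : ℤ, w k • (fourier k : C(UnitAddCircle, ℂ)))
      = ∑' k : ℤ, (w k * (1 - fourier 1 (-(k • s)))) • (fourier k : C(UnitAddCircle, ℂ)) := by
    intro w s hw
    have h1 : translate s (∑' k : ℤ, w k • (fourier k : C(UnitAddCircle, ℂ)))
        = ∑' k : ℤ, translate s (w k • (fourier k : C(UnitAddCircle, ℂ))) := by
      have := (trL s).map_tsum (hseries w hw)
      simpa only [trL_apply] using this
    have h2 : Summable (fun k : ℤ => translate s (w k • (fourier k : C(UnitAddCircle, ℂ)))) := by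
      have := (hseries w hw).map (trL s) (trL s).continuous
      exact this
    rw [h1, ← (hseries w hw).tsum_sub h2]
    refine tsum_congr (fun k => ?_)
    rw [translate_smul, translate_fourier, fourier_neg_zsmul]
    rw [← csmul_sub]
    have h3 : (fourier k : C(UnitAddCircle, ℂ)) - (fourier 1 (-(k • s)) : ℂ) • (fourier k : C(UnitAddCircle, ℂ))
        = (1 - fourier 1 (-(k • s)) : ℂ) • (fourier k : C(UnitAddCircle, ℂ)) := by
      ext t
      simp only [ContinuousMap.sub_apply, ContinuousMap.smul_apply, smul_eq_mul]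
      ring
    rw [h3, smul_smul]
  have hp0 : ∀ k, c k = 0 → p k = 0 := by
    intro k hk
    simp only [hp, hk, zero_mul, ite_self]
  have hq0 : ∀ k, c k = 0 → q k = 0 := by
    intro k hk
    simp only [hq, hk, zero_mul, ite_self]
  refine ⟨a, b, ⟨_, hmem p hp0 hps⟩, ⟨_, hmem q hq0 hqs⟩, ?_⟩
  apply Subtype.ext
  show f.1 = (_ - translate a _) + (_ - translate b _)
  rw [htr p a hps, htr q b hqs]
  have hbd : ∀ θ : UnitAddCircle, ‖(1 : ℂ) - fourier 1 θ‖ ≤ 2 := by
    intro θ
    refine (norm_sub_le _ _).trans ?_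
    have : ‖(fourier 1 θ : ℂ)‖ = 1 := by rw [fourier_apply]; exact Circle.norm_coe _
    rw [this, norm_one]; norm_num
  have hsp : Summable (fun k : ℤ => (p k * (1 - fourier 1 (-(k • a)))) • (fourier k : C(UnitAddCircle, ℂ))) := by
    apply hseries
    refine Summable.of_nonneg_of_le (fun k => norm_nonneg _) (fun k => ?_) (hps.mul_right 2)
    rw [norm_mul]
    exact mul_le_mul_of_nonneg_left (hbd _) (norm_nonneg _)
  have hsq : Summable (fun k : ℤ => (q k * (1 - fourier 1 (-(k • b)))) • (fourier k : C(UnitAddCircle, ℂ))) := by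
    apply hseries
    refine Summable.of_nonneg_of_le (fun k => norm_nonneg _) (fun k => ?_) (hqs.mul_right 2)
    rw [norm_mul]
    exact mul_le_mul_of_nonneg_left (hbd _) (norm_nonneg _)
  rw [← hsp.tsum_add hsq]
  have hf : HasSum (fun k : ℤ => c k • (fourier k : C(UnitAddCircle, ℂ))) f.1 :=
    hasSum_fourier_series_of_summable (f := f.1) (Summable.of_norm hs)
  rw [← hf.tsum_eq]
  refine tsum_congr (fun k => ?_)
  have h9 := add_smul (p k * (1 - fourier 1 (-(k • a)))) (q k * (1 - fourier 1 (-(k • b))))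
    (fourier k : C(UnitAddCircle, ℂ))
  rw [← hsum k] at h9
  exact h9

end Pool.Agent.Lib_helper87.Tilf
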