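import Pool.Agent.Lib_helper87.Tilf.Basic

/-!
Box averages of translates.
-/

noncomputable section

namespace Pool.Agent.Lib_helper87.Tilf

open MeasureTheory AddCircle Topology Finset

theorem csmul_add (c : ℂ) (f g : C(UnitAddCircle, ℂ)) : c • (f + g) = c • f + c • g :=
  smul_add c f g

theorem czero_smul (f : C(UnitAddCircle, ℂ)) : (0 : ℂ) • f = 0 := zero_smul ℂ f

/-- average of the translates by `0, a, …, (R-1)a`. -/
def av1 (R : ℕ) (a : UnitAddCircle) (f : C(UnitAddCircle, ℂ)) : C(UnitAddCircle, ℂ) :=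
  ((R : ℂ)⁻¹) • ∑ j ∈ Finset.range R, translate (j • a) f

/-- box average. -/
def av (R : ℕ) : (n : ℕ) → (Fin n → UnitAddCircle) → C(UnitAddCircle, ℂ) → C(UnitAddCircle, ℂ)
  | 0, _, f => f
  | n + 1, a, f => av1 R (a 0) (av R n (Fin.tail a) f)

theorem av1_sub (R : ℕ) (a : UnitAddCircle) (f g : C(UnitAddCircle, ℂ)) :
    av1 R a (f - g) = av1 R a f - av1 R a g := by
  simp only [av1, translate_sub, Finset.sum_sub_distrib, smul_sub]

theorem av1_add (R : ℕ) (a : UnitAddCircle) (f g : C(UnitAddCircle, ℂ)) :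
    av1 R a (f + g) = av1 R a f + av1 R a g := by
  simp only [av1, translate_add, Finset.sum_add_distrib]
  exact csmul_add _ _ _

theorem av1_smul (R : ℕ) (a : UnitAddCircle) (c : ℂ) (f : C(UnitAddCircle, ℂ)) :
    av1 R a (c • f) = c • av1 R a f := by
  simp only [av1, translate_smul, ← Finset.smul_sum]
  rw [smul_comm]

theorem av_add (R n : ℕ) (a : Fin n → UnitAddCircle) (f g : C(UnitAddCircle, ℂ)) :
    av R n a (f + g) = av R n a f + av R n a g := by
  induction n with
  | zero => rfl
  | succ n ih => simp only [av, ih, av1_add]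

theorem av_sub (R n : ℕ) (a : Fin n → UnitAddCircle) (f g : C(UnitAddCircle, ℂ)) :
    av R n a (f - g) = av R n a f - av R n a g := by
  induction n with
  | zero => rfl
  | succ n ih => simp only [av, ih, av1_sub]

theorem av_smul (R n : ℕ) (a : Fin n → UnitAddCircle) (c : ℂ) (f : C(UnitAddCircle, ℂ)) :
    av R n a (c • f) = c • av R n a f := by
  induction n with
  | zero => rfl
  | succ n ih => simp only [av, ih, av1_smul]

theorem av_zero (R n : ℕ) (a : Fin n → UnitAddCircle) : av R n a 0 = 0 := by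
  have h := av_smul R n a 0 0
  rw [czero_smul, czero_smul] at h
  exact h

theorem av_sum (R n : ℕ) (a : Fin n → UnitAddCircle) {ι : Type*} (s : Finset ι)
    (f : ι → C(UnitAddCircle, ℂ)) :
    av R n a (∑ i ∈ s, f i) = ∑ i ∈ s, av R n a (f i) := by
  classical
  induction s using Finset.induction_on with
  | empty => simp [av_zero]
  | insert i s hi ih => rw [Finset.sum_insert hi, Finset.sum_insert hi, av_add, ih]

theorem av1_translate (R : ℕ) (a s : UnitAddCircle) (f : C(UnitAddCircle, ℂ)) :
    av1 R a (translate s f) = translate s (av1 R a f) := by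
  ext t
  simp only [av1, ContinuousMap.smul_apply, ContinuousMap.sum_apply, translate_apply]
  congr 1
  refine Finset.sum_congr rfl (fun j _ => ?_)
  congr 1; abel

theorem av_translate (R n : ℕ) (a : Fin n → UnitAddCircle) (s : UnitAddCircle)
    (f : C(UnitAddCircle, ℂ)) :
    av R n a (translate s f) = translate s (av R n a f) := by
  induction n with
  | zero => rfl
  | succ n ih => simp only [av, ih, av1_translate]

theorem av_av1 (R n : ℕ) (a : Fin n → UnitAddCircle) (S : ℕ) (b : UnitAddCircle)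
    (f : C(UnitAddCircle, ℂ)) : av R n a (av1 S b f) = av1 S b (av R n a f) := by
  rw [av1, av_smul, av_sum, av1]
  congr 1
  refine Finset.sum_congr rfl (fun j _ => ?_)
  rw [av_translate]

theorem av_comm (R n : ℕ) (a : Fin n → UnitAddCircle) (S m : ℕ) (b : Fin m → UnitAddCircle)
    (f : C(UnitAddCircle, ℂ)) : av R n a (av S m b f) = av S m b (av R n a f) := by
  induction m with
  | zero => rfl
  | succ m ih => simp only [av, av_av1, ih]

theorem norm_av1_le {R : ℕ} (hR : 1 ≤ R) (a : UnitAddCircle) (f : C(UnitAddCircle, ℂ)) :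
    ‖av1 R a f‖ ≤ ‖f‖ := by
  have hR' : (0 : ℝ) < R := by exact_mod_cast hR
  rw [av1, norm_smul, norm_inv, Complex.norm_natCast]
  have h1 : ‖∑ j ∈ Finset.range R, translate (j • a) f‖ ≤ R * ‖f‖ := by
    refine (norm_sum_le _ _).trans ?_
    calc ∑ j ∈ Finset.range R, ‖translate (j • a) f‖ ≤ ∑ j ∈ Finset.range R, ‖f‖ :=
          Finset.sum_le_sum (fun j _ => norm_translate _ _)
      _ = R * ‖f‖ := by simp
  calc (R : ℝ)⁻¹ * ‖∑ j ∈ Finset.range R, translate (j • a) f‖ ≤ (R : ℝ)⁻¹ * (R * ‖f‖) := by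
        gcongr
    _ = ‖f‖ := by field_simp

theorem norm_av_le {R : ℕ} (hR : 1 ≤ R) (n : ℕ) (a : Fin n → UnitAddCircle)
    (f : C(UnitAddCircle, ℂ)) : ‖av R n a f‖ ≤ ‖f‖ := by
  induction n with
  | zero => exact le_rfl
  | succ n ih => exact (norm_av1_le hR _ _).trans (ih _)

theorem norm_av1_diff {R : ℕ} (hR : 1 ≤ R) (a : UnitAddCircle) (g : C(UnitAddCircle, ℂ)) :
    ‖av1 R a (g - translate a g)‖ ≤ 2 * ‖g‖ / R := by
  have hR' : (0 : ℝ) < R := by exact_mod_cast hR
  have h1 : ∑ j ∈ Finset.range R, translate (j • a) (g - translate a g)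
      = g - translate (R • a) g := by
    have h2 : ∀ j, translate (j • a) (g - translate a g)
        = translate (j • a) g - translate ((j + 1) • a) g := by
      intro j
      rw [translate_sub, translate_translate, succ_nsmul]
    simp_rw [h2]
    rw [Finset.sum_range_sub' (fun j => translate (j • a) g) R, zero_smul, translate_zero]
  rw [av1, h1, norm_smul, norm_inv, Complex.norm_natCast]
  have h3 : ‖g - translate (R • a) g‖ ≤ 2 * ‖g‖ := by
    refine (norm_sub_le _ _).trans ?_
    have := norm_translate (R • a) g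
    linarith
  rw [inv_mul_eq_div]
  gcongr

theorem norm_av_diff {R : ℕ} (hR : 1 ≤ R) (n : ℕ) (a : Fin n → UnitAddCircle) (i : Fin n)
    (g : C(UnitAddCircle, ℂ)) :
    ‖av R n a (g - translate (a i) g)‖ ≤ 2 * ‖g‖ / R := by
  have hR' : (0 : ℝ) < R := by exact_mod_cast hR
  induction n with
  | zero => exact i.elim0
  | succ n ih =>
    refine Fin.cases ?_ (fun j => ?_) i
    · rw [av, av_sub, av_translate]
      refine (norm_av1_diff hR _ _).trans ?_
      have := norm_av_le hR n (Fin.tail a) g
      gcongr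
    · rw [av]
      exact (norm_av1_le hR _ _).trans (ih (Fin.tail a) j)

theorem norm_av_of_sum {R : ℕ} (hR : 1 ≤ R) (n : ℕ) (a : Fin n → UnitAddCircle)
    (g : Fin n → C(UnitAddCircle, ℂ)) (f : C(UnitAddCircle, ℂ))
    (hf : f = ∑ i, (g i - translate (a i) (g i))) :
    ‖av R n a f‖ ≤ (∑ i, 2 * ‖g i‖) / R := by
  rw [hf, av_sum]
  refine (norm_sum_le _ _).trans ?_
  rw [Finset.sum_div]
  exact Finset.sum_le_sum (fun i _ => norm_av_diff hR n a i (g i))

/-- If all the points of a translated box lie in the region where `f` is close to `c`, then so is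
the average. -/
theorem av_eval {R : ℕ} (hR : 1 ≤ R) (n : ℕ) (a : Fin n → UnitAddCircle)
    (f : C(UnitAddCircle, ℂ)) (x : UnitAddCircle) (c : ℂ) (η : ℝ)
    (h : ∀ m : Fin n → Fin R, ‖f (x - ∑ i, ((m i : ℕ)) • a i) - c‖ ≤ η) :
    ‖av R n a f x - c‖ ≤ η := by
  have hR' : (0 : ℝ) < R := by exact_mod_cast hR
  have hRc : (R : ℂ) ≠ 0 := by
    have : R ≠ 0 := by omega
    exact_mod_cast this
  induction n generalizing x with
  | zero =>
    have := h Fin.elim0
    simpa [av] using this
  | succ n ih =>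
    have h1 : ∀ j ∈ Finset.range R, ‖av R n (Fin.tail a) f (x - j • a 0) - c‖ ≤ η := by
      intro j hj
      apply ih
      intro m
      have h2 := h (Fin.cons ⟨j, Finset.mem_range.mp hj⟩ m)
      rw [Fin.sum_univ_succ] at h2
      simp only [Fin.cons_zero, Fin.cons_succ] at h2
      have h3 : x - j • a 0 - ∑ i, ((m i : ℕ)) • Fin.tail a i
          = x - (j • a 0 + ∑ i : Fin n, ((m i : ℕ)) • a i.succ) := by
        simp only [Fin.tail]
        abel
      rw [h3]
      exact h2
    rw [av, av1, ContinuousMap.smul_apply, ContinuousMap.sum_apply]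
    simp only [translate_apply, smul_eq_mul]
    have h4 : (R : ℂ)⁻¹ * ∑ j ∈ Finset.range R, av R n (Fin.tail a) f (x - j • a 0) - c
        = (R : ℂ)⁻¹ * ∑ j ∈ Finset.range R, (av R n (Fin.tail a) f (x - j • a 0) - c) := by
      rw [Finset.sum_sub_distrib, Finset.sum_const, Finset.card_range, nsmul_eq_mul]
      field_simp
    rw [h4, norm_mul, norm_inv, Complex.norm_natCast]
    have h5 : ‖∑ j ∈ Finset.range R, (av R n (Fin.tail a) f (x - j • a 0) - c)‖ ≤ R * η := by
      refine (norm_sum_le _ _).trans ?_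
      calc ∑ j ∈ Finset.range R, ‖av R n (Fin.tail a) f (x - j • a 0) - c‖
          ≤ ∑ j ∈ Finset.range R, η := Finset.sum_le_sum h1
        _ = R * η := by simp
    calc (R : ℝ)⁻¹ * ‖∑ j ∈ Finset.range R, (av R n (Fin.tail a) f (x - j • a 0) - c)‖
        ≤ (R : ℝ)⁻¹ * (R * η) := by gcongr
      _ = η := by field_simp

theorem continuous_av1 (R : ℕ) :
    Continuous (fun p : UnitAddCircle × C(UnitAddCircle, ℂ) => av1 R p.1 p.2) := by
  have h : Continuous (fun p : UnitAddCircle × C(UnitAddCircle, ℂ) =>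
      ∑ j ∈ range R, translate (j • p.1) p.2) := by
    refine continuous_finsetSum _ (fun j _ => ?_)
    exact continuous_translate.comp
      (by fun_prop : Continuous fun p : UnitAddCircle × C(UnitAddCircle, ℂ) => (j • p.1, p.2))
  exact Continuous.const_smul h ((R : ℂ)⁻¹)

theorem continuous_av (R n : ℕ) :
    Continuous (fun p : (Fin n → UnitAddCircle) × C(UnitAddCircle, ℂ) => av R n p.1 p.2) := by
  induction n with
  | zero => exact continuous_snd
  | succ n ih =>
    have h1 : Continuous (fun p : (Fin (n + 1) → UnitAddCircle) × C(UnitAddCircle, ℂ) =>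
        ((Fin.tail p.1 : Fin n → UnitAddCircle), p.2)) := by
      refine Continuous.prodMk ?_ continuous_snd
      refine continuous_pi (fun i => ?_)
      simp only [Fin.tail]
      fun_prop
    have h2 := ih.comp h1
    have h3 : Continuous (fun p : (Fin (n + 1) → UnitAddCircle) × C(UnitAddCircle, ℂ) =>
        (p.1 0, av R n (Fin.tail p.1) p.2)) := by
      refine Continuous.prodMk ?_ h2
      fun_prop
    exact (continuous_av1 R).comp h3

end Pool.Agent.Lib_helper87.Tilf
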