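import Pool.Agent.Lib_helper87.Tilf.Defs

/-!
Basic facts on translations, Fourier coefficients and `C_E(𝕋)`.
-/

noncomputable section

namespace Pool.Agent.Lib_helper87.Tilf

open MeasureTheory AddCircle Topology

theorem translate_apply (a : UnitAddCircle) (f : C(UnitAddCircle, ℂ)) (t : UnitAddCircle) :
    translate a f t = f (t - a) := rfl

theorem translate_add (a : UnitAddCircle) (f g : C(UnitAddCircle, ℂ)) :
    translate a (f + g) = translate a f + translate a g := by
  ext t; rfl

theorem translate_sub (a : UnitAddCircle) (f g : C(UnitAddCircle, ℂ)) :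
    translate a (f - g) = translate a f - translate a g := by
  ext t; rfl

theorem translate_smul (a : UnitAddCircle) (c : ℂ) (f : C(UnitAddCircle, ℂ)) :
    translate a (c • f) = c • translate a f := by
  ext t; rfl

theorem translate_translate (a b : UnitAddCircle) (f : C(UnitAddCircle, ℂ)) :
    translate a (translate b f) = translate (a + b) f := by
  ext t; simp only [translate_apply]; congr 1; abel

theorem translate_zero (f : C(UnitAddCircle, ℂ)) : translate 0 f = f := by
  ext t; simp [translate_apply]

theorem norm_translate (a : UnitAddCircle) (f : C(UnitAddCircle, ℂ)) :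
    ‖translate a f‖ ≤ ‖f‖ := by
  rw [ContinuousMap.norm_le _ (norm_nonneg f)]
  intro t
  exact f.norm_coe_le_norm _

theorem continuous_translate :
    Continuous (fun p : UnitAddCircle × C(UnitAddCircle, ℂ) => translate p.1 p.2) := by
  apply ContinuousMap.continuous_of_continuous_uncurry
  have : Continuous (fun p : (UnitAddCircle × C(UnitAddCircle, ℂ)) × UnitAddCircle =>
      p.1.2 (p.2 - p.1.1)) := by
    fun_prop
  exact this

theorem integrable_of_cont (f : C(UnitAddCircle, ℂ)) :
    Integrable (f : UnitAddCircle → ℂ) haarAddCircle :=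
  f.continuous.integrable_of_hasCompactSupport (HasCompactSupport.of_compactSpace _)

theorem coeff_add (f g : C(UnitAddCircle, ℂ)) (k : ℤ) :
    fourierCoeff ((f + g : C(UnitAddCircle, ℂ)) : UnitAddCircle → ℂ) k
      = fourierCoeff (f : UnitAddCircle → ℂ) k + fourierCoeff (g : UnitAddCircle → ℂ) k := by
  rw [ContinuousMap.coe_add]
  exact congrFun (fourierCoeff.add (integrable_of_cont f) (integrable_of_cont g)) k

theorem coeff_smul (c : ℂ) (f : C(UnitAddCircle, ℂ)) (k : ℤ) :
    fourierCoeff ((c • f : C(UnitAddCircle, ℂ)) : UnitAddCircle → ℂ) k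
      = c * fourierCoeff (f : UnitAddCircle → ℂ) k := by
  rw [ContinuousMap.coe_smul, fourierCoeff.const_smul, smul_eq_mul]

/-- the `k`-th Fourier coefficient as a continuous linear functional. -/
def coeffL (k : ℤ) : C(UnitAddCircle, ℂ) →L[ℂ] ℂ :=
  LinearMap.mkContinuous
    { toFun := fun f => fourierCoeff (f : UnitAddCircle → ℂ) k
      map_add' := fun f g => coeff_add f g k
      map_smul' := fun c f => coeff_smul c f k } 1 (by
      intro f
      simp only [LinearMap.coe_mk, AddHom.coe_mk, one_mul]
      rw [fourierCoeff]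
      have h1 : ∀ t : UnitAddCircle, ‖fourier (-k) t • f t‖ ≤ ‖f‖ := by
        intro t
        rw [norm_smul]
        have : ‖(fourier (-k) t : ℂ)‖ = 1 := by
          rw [fourier_apply]; exact Circle.norm_coe _
        rw [this, one_mul]
        exact f.norm_coe_le_norm t
      have h2 := norm_integral_le_of_norm_le_const (μ := (haarAddCircle : Measure UnitAddCircle))
        (Filter.Eventually.of_forall h1)
      simpa using h2)

theorem coeffL_apply (k : ℤ) (f : C(UnitAddCircle, ℂ)) :
    coeffL k f = fourierCoeff (f : UnitAddCircle → ℂ) k := rfl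

theorem mem_CE {E : Set ℤ} {f : C(UnitAddCircle, ℂ)} :
    f ∈ CE E ↔ ∀ k : ℤ, k ∉ E → coeffL k f = 0 := Iff.rfl

theorem isClosed_CE (E : Set ℤ) : IsClosed (CE E : Set C(UnitAddCircle, ℂ)) := by
  have : (CE E : Set C(UnitAddCircle, ℂ)) = ⋂ k : ℤ, ⋂ _ : k ∉ E, {f | coeffL k f = 0} := by
    ext f
    simp only [SetLike.mem_coe, mem_CE, Set.mem_iInter, Set.mem_ofPred_eq]
  rw [this]
  refine isClosed_iInter (fun k => isClosed_iInter (fun _ => ?_))
  exact isClosed_eq (coeffL k).continuous continuous_const

instance (E : Set ℤ) : CompleteSpace (CE E) :=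
  (isClosed_CE E).completeSpace_coe

theorem coeff_translate (a : UnitAddCircle) (f : C(UnitAddCircle, ℂ)) (k : ℤ) :
    coeffL k (translate a f) = fourier (-k) a * coeffL k f := by
  rw [coeffL_apply, coeffL_apply, fourierCoeff, fourierCoeff, ← integral_const_mul]
  have h := integral_add_right_eq_self (μ := (haarAddCircle : Measure UnitAddCircle))
    (fun t => fourier (-k) t • (translate a f) t) a
  rw [← h]
  congr 1
  ext t
  simp only [translate_apply, smul_eq_mul, add_sub_cancel_right]
  have : (fourier (-k) (t + a) : ℂ) = fourier (-k) t * fourier (-k) a := by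
    rw [fourier_apply, fourier_apply, fourier_apply, smul_add, toCircle_add, Circle.coe_mul]
  rw [this]; ring

theorem translate_mem {E : Set ℤ} (a : UnitAddCircle) {f : C(UnitAddCircle, ℂ)} (hf : f ∈ CE E) :
    translate a f ∈ CE E := by
  rw [mem_CE] at hf ⊢
  intro k hk
  rw [coeff_translate, hf k hk, mul_zero]

/-- translation on the space `C_E`. -/
def tr {E : Set ℤ} (a : UnitAddCircle) (f : CE E) : CE E :=
  ⟨translate a f.1, translate_mem a f.2⟩

theorem continuous_tr {E : Set ℤ} (f : CE E) : Continuous (fun a => tr a f) := by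
  apply Continuous.subtype_mk
  exact continuous_translate.comp (by fun_prop : Continuous fun a => (a, f.1))

/-- Abstract form: a continuous functional which is constant on a continuous family `F a`, `a ∈ 𝕋`,
of weak mean zero, takes the value zero on that family. -/
theorem generic_vanish {X ι : Type*} [NormedAddCommGroup X] [NormedSpace ℂ X] [CompleteSpace X]
    (Φ : X →ₗ[ℂ] ℂ) (hc : Continuous Φ) (F : UnitAddCircle → X) (hF : Continuous F) (c : ℂ)
    (hΦ : ∀ a, Φ (F a) = c) (ev : ι → X →L[ℂ] ℂ) (hsep : ∀ x, (∀ i, ev i x = 0) → x = 0)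
    (hev : ∀ i, ∫ a, ev i (F a) ∂(haarAddCircle : Measure UnitAddCircle) = 0) : c = 0 := by
  set Ψ : X →L[ℂ] ℂ := ⟨Φ, hc⟩ with hΨ
  have hint : Integrable F (haarAddCircle : Measure UnitAddCircle) :=
    hF.integrable_of_hasCompactSupport (HasCompactSupport.of_compactSpace _)
  have h1 : Ψ (∫ a, F a ∂haarAddCircle) = ∫ a, Ψ (F a) ∂haarAddCircle :=
    (ContinuousLinearMap.integral_comp_comm Ψ hint).symm
  have h2 : ∀ a, Ψ (F a) = c := hΦ
  have h3 : ∫ a, F a ∂(haarAddCircle : Measure UnitAddCircle) = 0 := by
    apply hsep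
    intro i
    rw [← ContinuousLinearMap.integral_comp_comm (ev i) hint]
    exact hev i
  rw [h3, map_zero] at h1
  simp only [h2] at h1
  simpa using h1.symm

/-- evaluation at a point, on `C_E`. -/
def evE {E : Set ℤ} (x : UnitAddCircle) : CE E →L[ℂ] ℂ :=
  (ContinuousMap.evalCLM ℂ x).comp (CE E).subtypeL

theorem evE_apply {E : Set ℤ} (x : UnitAddCircle) (f : CE E) : evE x f = f.1 x := rfl

/-- A continuous TILF vanishes on the functions with zero mean. -/
theorem continuous_tilf_vanish {E : Set ℤ} (Φ : CE E →ₗ[ℂ] ℂ) (hΦ : IsTILF Φ) (hc : Continuous Φ)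
    (f : CE E) (hf : coeffL 0 f.1 = 0) : Φ f = 0 := by
  refine generic_vanish (X := CE E) Φ hc (fun a => tr a f) (continuous_tr f) (Φ f)
    (fun a => hΦ a f (tr a f) rfl) (fun x : UnitAddCircle => evE x) ?_ ?_
  · intro g hg
    apply Subtype.ext
    ext x
    exact hg x
  · intro x
    simp only [evE_apply, tr, translate_apply]
    have h5 := integral_sub_left_eq_self (fun t => f.1 t) (haarAddCircle : Measure UnitAddCircle) x
    rw [h5]
    rw [coeffL_apply, fourierCoeff] at hf
    simpa using hf

/-- If `E` has the automatic continuity property then every mean-zero function of `C_E` is a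
combination of differences. -/
theorem mem_span_differences {E : Set ℤ} (hE : AutomaticContinuity E) (f : CE E)
    (hf : coeffL 0 f.1 = 0) :
    f ∈ Submodule.span ℂ {h : CE E | ∃ (a : UnitAddCircle) (g : CE E), h = g - tr a g} := by
  by_contra hcon
  obtain ⟨Φ, hΦf, hΦ⟩ := Submodule.exists_le_ker_of_notMem
    (p := Submodule.span ℂ {h : CE E | ∃ (a : UnitAddCircle) (g : CE E), h = g - tr a g}) hcon
  have hT : IsTILF Φ := by
    intro a g h hh
    have h1 : h = tr a g := Subtype.ext hh
    have h2 : g - tr a g ∈ LinearMap.ker Φ := hΦ (Submodule.subset_span ⟨a, g, rfl⟩)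
    rw [LinearMap.mem_ker] at h2
    have h3 : Φ (g - tr a g) = Φ g - Φ (tr a g) := LinearMap.map_sub Φ g (tr a g)
    rw [h3] at h2
    rw [h1]
    exact (sub_eq_zero.mp h2).symm
  exact hΦf (continuous_tilf_vanish Φ hT (hE Φ hT) f hf)

end Pool.Agent.Lib_helper87.Tilf
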