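import Mathlib

/-!
Translation-invariant linear forms on spaces of `E`-spectral continuous functions on the circle
`ℝ/ℤ`.
-/

noncomputable section

namespace Pool.Agent.Lib_helper87.Tilf

open MeasureTheory AddCircle

/-- The translate `f_a(t) = f(t - a)` of a continuous function `f` on `ℝ/ℤ`. -/
def translate (a : UnitAddCircle) (f : C(UnitAddCircle, ℂ)) : C(UnitAddCircle, ℂ) where
  toFun t := f (t - a)
  continuous_toFun := by fun_prop

/-- `C_E(𝕋)`: the continuous functions `f` on `ℝ/ℤ` whose Fourier coefficients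
`∫₀¹ f(t) e^{-2πikt} dt` vanish for every `k ∉ E` (with the supremum norm of `C(𝕋)`). -/
def CE (E : Set ℤ) : Submodule ℂ C(UnitAddCircle, ℂ) where
  carrier := {f | ∀ k : ℤ, k ∉ E → fourierCoeff (f : UnitAddCircle → ℂ) k = 0}
  zero_mem' := by
    intro k _
    simp [fourierCoeff]
  add_mem' := by
    intro f g hf hg k hk
    have h : fourierCoeff ((f : UnitAddCircle → ℂ) + (g : UnitAddCircle → ℂ)) k
        = fourierCoeff (f : UnitAddCircle → ℂ) k + fourierCoeff (g : UnitAddCircle → ℂ) k :=
      congrFun (fourierCoeff.add (f.continuous.integrable_of_hasCompactSupport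
        (HasCompactSupport.of_compactSpace _)) (g.continuous.integrable_of_hasCompactSupport
        (HasCompactSupport.of_compactSpace _))) k
    rw [ContinuousMap.coe_add, h, hf k hk, hg k hk, add_zero]
  smul_mem' := by
    intro c f hf k hk
    rw [ContinuousMap.coe_smul, fourierCoeff.const_smul, hf k hk, smul_zero]

/-- `Φ` is a translation-invariant linear form (TILF) on `C_E(𝕋)`; it is not assumed continuous. -/
def IsTILF {E : Set ℤ} (Φ : CE E →ₗ[ℂ] ℂ) : Prop :=
  ∀ (a : UnitAddCircle) (f g : CE E),
    (g : C(UnitAddCircle, ℂ)) = translate a (f : C(UnitAddCircle, ℂ)) → Φ g = Φ f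

/-- `E` has the automatic continuity property: every TILF on `C_E(𝕋)` is continuous for the
supremum norm. -/
def AutomaticContinuity (E : Set ℤ) : Prop :=
  ∀ Φ : CE E →ₗ[ℂ] ℂ, IsTILF Φ → Continuous Φ

end Pool.Agent.Lib_helper87.Tilf
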