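import Pool.Agent.Lib_helper87.Tilf.Peak

/-!
If `E` contains arbitrarily long homogeneous progressions `d, 2d, …, Ld` then `C_E(𝕋)` carries a
discontinuous translation-invariant linear form.
-/

noncomputable section

namespace Pool.Agent.Lib_helper87.Tilf

open MeasureTheory AddCircle Topology Finset

theorem norm_fourier_one (x : UnitAddCircle) : ‖(fourier 1 x : ℂ)‖ = 1 := by
  rw [fourier_apply]; exact Circle.norm_coe _

/-- polynomials adapted to a dense sequence of points. -/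
theorem exists_peaks : ∃ Q : ℕ → Polynomial ℂ, (∀ j, (Q j).eval 0 = 1) ∧
    (∀ j (x : UnitAddCircle), ‖(Q j).eval (fourier 1 x)‖ ≤ 1 + (1 / 16) * (1 / 2) ^ j) ∧
    Dense (⋃ j, {x : UnitAddCircle | ‖(Q j).eval (fourier 1 x)‖ < 1 / 8}) := by
  have hε : ∀ j : ℕ, (0 : ℝ) < (1 / 16) * (1 / 2) ^ j := fun j => by positivity
  choose G hG0 hG1 hG2 using fun j : ℕ => exists_peak (hε j)
  set r : ℕ → UnitAddCircle := TopologicalSpace.denseSeq UnitAddCircle with hr
  set Q : ℕ → Polynomial ℂ := fun j =>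
    (G j).comp (Polynomial.C (fourier (-1) (r j) : ℂ) * Polynomial.X) with hQ
  have hev : ∀ j (x : UnitAddCircle), (Q j).eval (fourier 1 x) = (G j).eval (fourier 1 (x - r j)) := by
    intro j x
    simp only [hQ, Polynomial.eval_comp, Polynomial.eval_mul, Polynomial.eval_C, Polynomial.eval_X]
    congr 1
    rw [fourier_apply, fourier_apply, fourier_apply, one_zsmul, one_zsmul, neg_one_zsmul,
      sub_eq_add_neg, toCircle_add, Circle.coe_mul, mul_comm]
  refine ⟨Q, ?_, ?_, ?_⟩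
  · intro j
    simp only [hQ, Polynomial.eval_comp, Polynomial.eval_mul, Polynomial.eval_C, Polynomial.eval_X,
      mul_zero]
    exact hG0 j
  · intro j x
    rw [hev]
    exact hG1 j _ (norm_fourier_one _)
  · have h1 : Set.range r ⊆ ⋃ j, {x : UnitAddCircle | ‖(Q j).eval (fourier 1 x)‖ < 1 / 8} := by
      rintro _ ⟨j, rfl⟩
      rw [Set.mem_iUnion]
      refine ⟨j, ?_⟩
      rw [Set.mem_ofPred_eq, hev, sub_self, fourier_eval_zero]
      have h2 := hG2 j
      have h3 : ((1 : ℝ) / 2) ^ j ≤ 1 := pow_le_one₀ (by norm_num) (by norm_num)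
      linarith
    exact (TopologicalSpace.denseRange_denseSeq UnitAddCircle).mono h1

theorem prod_bound (s : Finset ℕ) (f : ℕ → ℝ) (h0 : ∀ j, 0 ≤ f j)
    (h : ∀ j, f j ≤ 1 + (1 / 16) * (1 / 2) ^ j) : ∏ j ∈ s, f j ≤ 2 := by
  have h1 : ∏ j ∈ s, f j ≤ ∏ j ∈ s, Real.exp ((1 / 16) * (1 / 2) ^ j) := by
    refine Finset.prod_le_prod (fun j _ => h0 j) (fun j _ => ?_)
    have := Real.add_one_le_exp ((1 / 16) * (1 / 2 : ℝ) ^ j)
    linarith [h j]
  rw [← Real.exp_sum] at h1
  have h2 : ∑ j ∈ s, (1 / 16) * (1 / 2 : ℝ) ^ j ≤ 1 / 8 := by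
    rw [← Finset.mul_sum]
    have h3 : ∑ j ∈ s, (1 / 2 : ℝ) ^ j ≤ ∑' j : ℕ, (1 / 2 : ℝ) ^ j :=
      Summable.sum_le_tsum s (fun j _ => by positivity) summable_geometric_two
    rw [tsum_geometric_two] at h3
    linarith
  have h3 : Real.exp (∑ j ∈ s, (1 / 16) * (1 / 2 : ℝ) ^ j) ≤ Real.exp (1 / 2) :=
    Real.exp_le_exp.mpr (by linarith)
  have h4 : Real.exp (1 / 2) ≤ 2 := by
    have h5 : Real.exp (1 / 2) * Real.exp (1 / 2) = Real.exp 1 := by
      rw [← Real.exp_add]; norm_num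
    have h6 := Real.exp_one_lt_d9
    have h7 := Real.exp_pos (1 / 2)
    nlinarith
  linarith

/-- a polynomial, evaluated at the character `e(dx)`. -/
def polyChar (p : Polynomial ℂ) (d : ℤ) : C(UnitAddCircle, ℂ) where
  toFun x := p.eval (fourier d x)
  continuous_toFun := p.continuous.comp (fourier d).continuous

theorem polyChar_apply (p : Polynomial ℂ) (d : ℤ) (x : UnitAddCircle) :
    polyChar p d x = p.eval (fourier d x) := rfl

theorem fourier_mul_index (d : ℤ) (x : UnitAddCircle) : (fourier d x : ℂ) = fourier 1 (d • x) := by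
  rw [fourier_apply, fourier_apply, one_zsmul]

theorem coeffL_fourier (m k : ℤ) : coeffL k (fourier m : C(UnitAddCircle, ℂ)) = if k = m then 1 else 0 := by
  rw [coeffL_apply, fourierCoeff_fourier, Pi.single_apply]

theorem coeff_polyChar (p : Polynomial ℂ) (d : ℤ) (k : ℤ) :
    coeffL k (polyChar p d) = ∑ l ∈ range (p.natDegree + 1), p.coeff l * (if k = d * l then 1 else 0) := by
  have h1 : polyChar p d = ∑ l ∈ range (p.natDegree + 1), p.coeff l • (fourier (d * l) : C(UnitAddCircle, ℂ)) := by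
    ext x
    rw [polyChar_apply, Polynomial.eval_eq_sum_range, ContinuousMap.sum_apply]
    refine Finset.sum_congr rfl (fun l _ => ?_)
    rw [ContinuousMap.smul_apply, smul_eq_mul]
    congr 1
    rw [fourier_apply, fourier_apply, mul_comm d, mul_smul, natCast_zsmul, toCircle_nsmul]
    push_cast
    rfl
  rw [h1, map_sum]
  refine Finset.sum_congr rfl (fun l _ => ?_)
  rw [map_smul, coeffL_fourier, smul_eq_mul]

theorem exists_zsmul_eq {d : ℤ} (hd : d ≠ 0) (y : UnitAddCircle) : ∃ x : UnitAddCircle, d • x = y := by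
  obtain ⟨t, rfl⟩ := QuotientAddGroup.mk_surjective y
  refine ⟨((t / d : ℝ) : UnitAddCircle), ?_⟩
  have h : (d : ℝ) * (t / d) = t := by
    have : (d : ℝ) ≠ 0 := by exact_mod_cast hd
    field_simp
  have h2 : d • (((t / d : ℝ)) : UnitAddCircle) = ((d • (t / d : ℝ) : ℝ) : UnitAddCircle) := rfl
  rw [h2, zsmul_eq_mul, h]

/-- The bad functions: for every pair `n, R` there is a polynomial `p` without constant term which,
composed with any nontrivial character, cannot be made small by box averages. -/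
theorem exists_bad (R n : ℕ) (hR : 1 ≤ R) : ∃ p : Polynomial ℂ, p.coeff 0 = 0 ∧
    ∀ d : ℤ, d ≠ 0 → ‖polyChar p d‖ ≤ 3 ∧
      ∀ a b : Fin n → UnitAddCircle, 3 / 4 ≤ ‖av R n a (av R n b (polyChar p d))‖ := by
  obtain ⟨Q, hQ0, hQ1, hQ2⟩ := exists_peaks
  set V : ℕ → Set UnitAddCircle := fun j => {x : UnitAddCircle | ‖(Q j).eval (fourier 1 x)‖ < 1 / 8} with hV
  have hVopen : ∀ j, IsOpen (V j) := by
    intro j
    refine isOpen_lt ?_ continuous_const
    exact ((Q j).continuous.comp (fourier 1).continuous).norm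
  set W : ℕ → Set UnitAddCircle := fun k => ⋃ j ∈ range k, V j with hW
  obtain ⟨k, hk⟩ := exists_uniform W
    (fun k => isOpen_biUnion (fun j _ => hVopen j))
    (by
      intro k l hkl
      refine Set.biUnion_subset_biUnion_left ?_
      intro j hj
      simp only [Finset.coe_range, Set.mem_Iio] at hj ⊢
      exact lt_of_lt_of_le hj hkl)
    (by
      refine hQ2.mono ?_
      intro x hx
      rw [Set.mem_iUnion] at hx ⊢
      obtain ⟨j, hj⟩ := hx
      refine ⟨j + 1, ?_⟩
      simp only [hW, Set.mem_iUnion]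
      exact ⟨j, Finset.mem_range.mpr (Nat.lt_succ_self j), hj⟩) R n
  set P : Polynomial ℂ := ∏ j ∈ range k, Q j with hP
  have hPev : ∀ z : ℂ, P.eval z = ∏ j ∈ range k, (Q j).eval z := by
    intro z
    rw [hP, Polynomial.eval_prod]
  have hPle : ∀ x : UnitAddCircle, ‖P.eval (fourier 1 x)‖ ≤ 2 := by
    intro x
    rw [hPev, norm_prod]
    exact prod_bound _ _ (fun j => norm_nonneg _) (fun j => hQ1 j x)
  have hPW : ∀ x ∈ W k, ‖P.eval (fourier 1 x)‖ ≤ 1 / 4 := by
    intro x hx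
    simp only [hW, Set.mem_iUnion] at hx
    obtain ⟨j, hj, hxj⟩ := hx
    rw [hPev, norm_prod, ← Finset.mul_prod_erase _ _ hj]
    have h1 : ∏ i ∈ (range k).erase j, ‖(Q i).eval (fourier 1 x)‖ ≤ 2 :=
      prod_bound _ _ (fun j => norm_nonneg _) (fun j => hQ1 j x)
    have h2 : ‖(Q j).eval (fourier 1 x)‖ < 1 / 8 := hxj
    have h3 : 0 ≤ ∏ i ∈ (range k).erase j, ‖(Q i).eval (fourier 1 x)‖ :=
      Finset.prod_nonneg (fun _ _ => norm_nonneg _)
    nlinarith [norm_nonneg ((Q j).eval (fourier 1 x))]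
  refine ⟨1 - P, ?_, ?_⟩
  · rw [Polynomial.coeff_sub, Polynomial.coeff_zero_eq_eval_zero P, hPev, Polynomial.coeff_one_zero,
      Finset.prod_eq_one (fun j _ => hQ0 j), sub_self]
  · intro d hd
    have hval : ∀ x : UnitAddCircle, polyChar (1 - P) d x = 1 - P.eval (fourier 1 (d • x)) := by
      intro x
      rw [polyChar_apply, Polynomial.eval_sub, Polynomial.eval_one, fourier_mul_index]
    constructor
    · rw [ContinuousMap.norm_le _ (by norm_num)]
      intro x
      rw [hval]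
      refine (norm_sub_le _ _).trans ?_
      rw [norm_one]
      linarith [hPle (d • x)]
    · intro a b
      obtain ⟨y, hy⟩ := hk (fun i => d • a i) (fun i => d • b i)
      obtain ⟨x, hx⟩ := exists_zsmul_eq hd y
      have h1 : ‖av R n a (av R n b (polyChar (1 - P) d)) x - 1‖ ≤ 1 / 4 := by
        apply av_eval hR
        intro m
        apply av_eval hR
        intro m'
        rw [hval]
        have h2 : (1 : ℂ) - P.eval (fourier 1 (d • (x - ∑ i, ((m i : ℕ)) • a i - ∑ i, ((m' i : ℕ)) • b i))) - 1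
            = -P.eval (fourier 1 (d • (x - ∑ i, ((m i : ℕ)) • a i - ∑ i, ((m' i : ℕ)) • b i))) := by ring
        rw [h2, norm_neg]
        apply hPW
        have h3 : d • (x - ∑ i, ((m i : ℕ)) • a i - ∑ i, ((m' i : ℕ)) • b i)
            = y - ∑ i, ((m i : ℕ)) • (d • a i) - ∑ i, ((m' i : ℕ)) • (d • b i) := by
          rw [smul_sub, smul_sub, hx, Finset.smul_sum, Finset.smul_sum]
          congr 1
          · congr 1
            refine Finset.sum_congr rfl (fun i _ => ?_)
            rw [smul_comm]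
          · refine Finset.sum_congr rfl (fun i _ => ?_)
            rw [smul_comm]
        rw [h3]
        exact hy m m'
      have h2 : ‖av R n a (av R n b (polyChar (1 - P) d)) x‖ ≤ ‖av R n a (av R n b (polyChar (1 - P) d))‖ :=
        ContinuousMap.norm_coe_le_norm _ x
      have h3 := norm_sub_norm_le (1 : ℂ) (1 - av R n a (av R n b (polyChar (1 - P) d)) x)
      rw [sub_sub_cancel, norm_one, norm_sub_rev] at h3
      linarith

/-- Membership of the bad functions. -/
theorem polyChar_mem {E : Set ℤ} {p : Polynomial ℂ} (hp : p.coeff 0 = 0) {d : ℤ} (hd : d ≠ 0)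
    (h : ∀ l : ℕ, 1 ≤ l → l ≤ p.natDegree → d * l ∈ E) : polyChar p d ∈ CE (E \ {0}) := by
  rw [mem_CE]
  intro k hk
  rw [coeff_polyChar]
  refine Finset.sum_eq_zero (fun l hl => ?_)
  rcases Nat.eq_zero_or_pos l with rfl | hl0
  · rw [hp, zero_mul]
  · rw [if_neg, mul_zero]
    rintro rfl
    apply hk
    refine ⟨h l hl0 (by rw [Finset.mem_range] at hl; omega), ?_⟩
    rw [Set.mem_singleton_iff]
    have : (l : ℤ) ≠ 0 := by omega
    exact mul_ne_zero hd this

/-- the closed sets of the Baire argument. -/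
def GSet (E : Set ℤ) (n : ℕ) : Set (CE (E \ {0})) :=
  {f | ∃ a : Fin n → UnitAddCircle, ∀ R : ℕ, 1 ≤ R → ‖av R n a f.1‖ ≤ n / R}

theorem isClosed_GSet (E : Set ℤ) (n : ℕ) : IsClosed (GSet E n) := by
  have h1 : GSet E n = Prod.snd '' {q : (Fin n → UnitAddCircle) × CE (E \ {0}) |
      ∀ R : ℕ, 1 ≤ R → ‖av R n q.1 q.2.1‖ ≤ n / R} := by
    ext f
    constructor
    · rintro ⟨a, ha⟩
      exact ⟨(a, f), ha, rfl⟩
    · rintro ⟨⟨a, f'⟩, ha, rfl⟩
      exact ⟨a, ha⟩
  rw [h1]
  apply isClosedMap_snd_of_compactSpace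
  have h2 : {q : (Fin n → UnitAddCircle) × CE (E \ {0}) |
      ∀ R : ℕ, 1 ≤ R → ‖av R n q.1 q.2.1‖ ≤ n / R}
      = ⋂ R : ℕ, ⋂ _ : 1 ≤ R, {q : (Fin n → UnitAddCircle) × CE (E \ {0}) |
        ‖av R n q.1 q.2.1‖ ≤ n / R} := by
    ext q; simp only [Set.mem_ofPred_eq, Set.mem_iInter]
  rw [h2]
  refine isClosed_iInter (fun R => isClosed_iInter (fun _ => ?_))
  refine isClosed_le ?_ continuous_const
  apply Continuous.norm
  exact (continuous_av R n).comp
    (Continuous.prodMk continuous_fst (continuous_subtype_val.comp continuous_snd))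

/-- functions that are combinations of differences lie in some `GSet`. -/
theorem mem_GSet_of_span {E : Set ℤ} (f : CE (E \ {0})) (f' : CE E) (hff : f'.1 = f.1)
    (hf : f' ∈ Submodule.span ℂ {h : CE E | ∃ (a : UnitAddCircle) (g : CE E), h = g - tr a g}) :
    ∃ n, f ∈ GSet E n := by
  rw [Submodule.mem_span_set'] at hf
  obtain ⟨n, c, h, hsum⟩ := hf
  choose a g hg using fun i => (h i).2
  -- pad with zeros
  set A : ℕ → UnitAddCircle := fun i => if hi : i < n then a ⟨i, hi⟩ else 0 with hA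
  set F : ℕ → C(UnitAddCircle, ℂ) := fun i => if hi : i < n then c ⟨i, hi⟩ • (g ⟨i, hi⟩).1 else 0 with hF
  have hsum2 : ∀ N, n ≤ N → f.1 = ∑ i : Fin N, (F i - translate (A i) (F i)) := by
    intro N hN
    rw [Fin.sum_univ_eq_sum_range (fun i => F i - translate (A i) (F i)) N]
    have h1 : ∑ i ∈ range N, (F i - translate (A i) (F i)) = ∑ i ∈ range n, (F i - translate (A i) (F i)) := by
      symm
      apply Finset.sum_subset
      · intro i hi
        rw [Finset.mem_range] at hi ⊢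
        omega
      · intro i _ hi
        rw [Finset.mem_range, not_lt] at hi
        simp only [hF, hA, dif_neg (not_lt.mpr hi)]
        rw [translate_zero, sub_self]
    rw [h1, ← Fin.sum_univ_eq_sum_range (fun i => F i - translate (A i) (F i)) n, ← hff, ← hsum]
    rw [AddSubmonoidClass.coe_finsetSum]
    refine Finset.sum_congr rfl (fun i _ => ?_)
    have h2 : (h i : CE E) = g i - tr (a i) (g i) := hg i
    rw [h2]
    simp only [hF, hA, Fin.is_lt, dif_pos, Fin.eta]
    rw [translate_smul]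
    show c i • ((g i).1 - translate (a i) (g i).1) = _
    exact smul_sub (c i) (g i).1 (translate (a i) (g i).1)
  obtain ⟨M, hM⟩ := exists_nat_ge (∑ i ∈ range n, 2 * ‖F i‖)
  refine ⟨max n M, fun i => A i, fun R hR => ?_⟩
  have h3 := norm_av_of_sum hR (max n M) (fun i => A i) (fun i => F i) f.1 (hsum2 _ (le_max_left _ _))
  refine h3.trans ?_
  have hR' : (0 : ℝ) < R := by exact_mod_cast hR
  have h4 : ∑ i : Fin (max n M), 2 * ‖F i‖ = ∑ i ∈ range n, 2 * ‖F i‖ := by
    rw [Fin.sum_univ_eq_sum_range (fun i => 2 * ‖F i‖) (max n M)]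
    symm
    apply Finset.sum_subset
    · intro i hi
      rw [Finset.mem_range] at hi ⊢
      have := le_max_left n M
      omega
    · intro i _ hi
      rw [Finset.mem_range, not_lt] at hi
      simp only [hF, dif_neg (not_lt.mpr hi)]
      simp
  rw [h4]
  have h5 : (M : ℝ) ≤ ((max n M : ℕ) : ℝ) := by exact_mod_cast le_max_right n M
  gcongr
  linarith

/-- **Main negative theorem.** -/
theorem not_automaticContinuity {E : Set ℤ}
    (hE : ∀ L : ℕ, ∃ d : ℤ, d ≠ 0 ∧ ∀ l : ℕ, 1 ≤ l → l ≤ L → d * l ∈ E) :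
    ¬ AutomaticContinuity E := by
  intro hAC
  have hcov : ⋃ n, GSet E n = Set.univ := by
    rw [Set.eq_univ_iff_forall]
    intro f
    have hfE : f.1 ∈ CE E := by
      intro k hk
      exact f.2 k (fun h => hk h.1)
    have hf0 : coeffL 0 f.1 = 0 := f.2 0 (fun h => h.2 rfl)
    obtain ⟨n, hn⟩ := mem_GSet_of_span f ⟨f.1, hfE⟩ rfl (mem_span_differences hAC ⟨f.1, hfE⟩ hf0)
    exact Set.mem_iUnion.mpr ⟨n, hn⟩
  obtain ⟨n, f₀, hf₀⟩ := nonempty_interior_of_iUnion_of_closed (fun n => isClosed_GSet E n) hcov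
  rw [mem_interior_iff_mem_nhds] at hf₀
  obtain ⟨r, hr, hball⟩ : ∃ r > 0, ∀ f : CE (E \ {0}), ‖f.1 - f₀.1‖ < r → f ∈ GSet E n := by
    obtain ⟨r, hr, h⟩ := Metric.mem_nhds_iff.mp hf₀
    refine ⟨r, hr, fun f hf => h ?_⟩
    rw [Metric.mem_ball, Subtype.dist_eq, dist_eq_norm]
    exact hf
  -- choose R
  obtain ⟨R, hR⟩ := exists_nat_gt (max 1 (16 * n / r))
  have hR1 : 1 ≤ R := by
    have : (1 : ℝ) < R := lt_of_le_of_lt (le_max_left _ _) hR
    exact_mod_cast this.le
  have hR' : (0 : ℝ) < R := by exact_mod_cast hR1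
  have hR2 : 2 * (n : ℝ) / R < r / 8 := by
    have h1 : 16 * (n : ℝ) / r < R := lt_of_le_of_lt (le_max_right _ _) hR
    rw [div_lt_iff₀ hr] at h1
    rw [div_lt_iff₀ hR']
    linarith
  obtain ⟨p, hp0, hp⟩ := exists_bad R n hR1
  obtain ⟨d, hd, hdE⟩ := hE p.natDegree
  obtain ⟨hnorm, hlow⟩ := hp d hd
  have hmem := polyChar_mem (E := E) hp0 hd hdE
  set h := polyChar p d with hh
  set s : ℂ := ((r / 6 : ℝ) : ℂ) with hs
  have hsn : ‖s‖ = r / 6 := by
    rw [hs, Complex.norm_real, Real.norm_eq_abs, abs_of_pos (by positivity)]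
  have hsh : ‖s • h‖ < r := by
    rw [norm_smul, hsn]
    nlinarith
  obtain ⟨a, ha⟩ := hball ⟨f₀.1 + s • h, Submodule.add_mem _ f₀.2 (Submodule.smul_mem _ s hmem)⟩
    (by simpa using hsh)
  obtain ⟨b, hb⟩ := hball f₀ (by simpa using hr)
  have ha' := ha R hR1
  have hb' := hb R hR1
  simp only at ha'
  have h1 := hlow a b
  -- s • h = (f₀ + s • h) - f₀
  have h2 : av R n a (av R n b (s • h)) = av R n b (av R n a (f₀.1 + s • h)) - av R n a (av R n b f₀.1) := by
    rw [av_comm R n b R n a, ← av_sub, ← av_sub, add_sub_cancel_left]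
  have h3 : ‖av R n a (av R n b (s • h))‖ ≤ n / R + n / R := by
    rw [h2]
    refine (norm_sub_le _ _).trans ?_
    exact add_le_add ((norm_av_le hR1 n b _).trans ha') ((norm_av_le hR1 n a _).trans hb')
  rw [av_smul, av_smul, norm_smul, hsn] at h3
  have h4 : r / 6 * (3 / 4) ≤ r / 6 * ‖av R n a (av R n b h)‖ := by gcongr
  have h5 : (n : ℝ) / R + n / R = 2 * (n : ℝ) / R := by ring
  rw [h5] at h3
  linarith

end Pool.Agent.Lib_helper87.Tilf
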