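import Pool.Agent.Lib_helper87.Tilf.Averages

/-!
Analytic polynomials with constant term `1`, of modulus at most `1 + ε` on the closed unit disc,
which are small at the point `1`; and a compactness lemma.
-/

noncomputable section

namespace Pool.Agent.Lib_helper87.Tilf

open MeasureTheory AddCircle Topology Finset

/-- the polynomial `1 + logTaylor (N+1) (-ρ z) / Λ`. -/
def peakPoly (ρ Λ : ℝ) (N : ℕ) : Polynomial ℂ :=
  1 + ∑ j ∈ range (N + 1), Polynomial.C (((-1 : ℂ) ^ (j + 1) * (-(ρ : ℂ)) ^ j / j) / Λ) * Polynomial.X ^ j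

theorem peakPoly_eval (ρ Λ : ℝ) (N : ℕ) (z : ℂ) :
    (peakPoly ρ Λ N).eval z = 1 + Complex.logTaylor (N + 1) (-(ρ : ℂ) * z) / Λ := by
  rw [peakPoly, Polynomial.eval_add, Polynomial.eval_one, Polynomial.eval_finsetSum,
    Complex.logTaylor, Finset.sum_div]
  congr 1
  refine Finset.sum_congr rfl (fun j _ => ?_)
  rw [Polynomial.eval_mul, Polynomial.eval_C, Polynomial.eval_pow, Polynomial.eval_X, mul_pow]
  ring

theorem exists_peak {ε : ℝ} (hε : 0 < ε) :
    ∃ G : Polynomial ℂ, G.eval 0 = 1 ∧ (∀ z : ℂ, ‖z‖ = 1 → ‖G.eval z‖ ≤ 1 + ε) ∧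
      ‖G.eval 1‖ ≤ ε := by
  set Λ : ℝ := 10 / ε with hΛ
  have hΛ0 : 0 < Λ := by positivity
  set ρ : ℝ := 1 - Real.exp (-Λ) with hρ
  have he0 : 0 < Real.exp (-Λ) := Real.exp_pos _
  have he1 : Real.exp (-Λ) < 1 := by
    rw [Real.exp_lt_one_iff]; linarith
  have hρ0 : 0 < ρ := by rw [hρ]; linarith
  have hρ1 : ρ < 1 := by rw [hρ]; linarith
  have hlog : Real.log (1 - ρ) = -Λ := by
    rw [hρ, sub_sub_cancel, Real.log_exp]
  -- choice of the degree
  obtain ⟨N, hN⟩ : ∃ N : ℕ, ρ ^ N < (ε / 2) * Λ * (1 - ρ) := by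
    apply exists_pow_lt_of_lt_one _ hρ1
    have : 0 < 1 - ρ := by linarith
    positivity
  have htail : ∀ z : ℂ, ‖z‖ = 1 →
      ‖Complex.log (1 + -(ρ : ℂ) * z) - Complex.logTaylor (N + 1) (-(ρ : ℂ) * z)‖ ≤ (ε / 2) * Λ := by
    intro z hz
    have hn : ‖-(ρ : ℂ) * z‖ = ρ := by
      rw [norm_mul, norm_neg, hz, mul_one, Complex.norm_real, Real.norm_eq_abs, abs_of_pos hρ0]
    have h1 := Complex.norm_log_sub_logTaylor_le N (z := -(ρ : ℂ) * z) (by rw [hn]; exact hρ1)
    rw [hn] at h1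
    refine h1.trans ?_
    have h2 : 0 < 1 - ρ := by linarith
    have h3 : ρ ^ (N + 1) * (1 - ρ)⁻¹ / (N + 1) ≤ ρ ^ (N + 1) * (1 - ρ)⁻¹ := by
      apply div_le_self
      · positivity
      · have : (0 : ℝ) ≤ N := by positivity
        linarith
    have h4 : ρ ^ (N + 1) ≤ ρ ^ N := by
      rw [pow_succ]
      have : 0 ≤ ρ ^ N := by positivity
      nlinarith
    have h5 : ρ ^ (N + 1) * (1 - ρ)⁻¹ ≤ (ε / 2) * Λ := by
      rw [← div_eq_mul_inv, div_le_iff₀ h2]
      linarith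
    linarith
  have hG : ∀ z : ℂ, ‖z‖ = 1 → ‖(peakPoly ρ Λ N).eval z - (1 + Complex.log (1 + -(ρ : ℂ) * z) / Λ)‖ ≤ ε / 2 := by
    intro z hz
    rw [peakPoly_eval]
    have h1 : (1 + Complex.logTaylor (N + 1) (-(ρ : ℂ) * z) / Λ) - (1 + Complex.log (1 + -(ρ : ℂ) * z) / Λ)
        = -(Complex.log (1 + -(ρ : ℂ) * z) - Complex.logTaylor (N + 1) (-(ρ : ℂ) * z)) / Λ := by ring
    rw [h1, norm_div, norm_neg, Complex.norm_real, Real.norm_eq_abs, abs_of_pos hΛ0, div_le_iff₀ hΛ0]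
    exact htail z hz
  refine ⟨peakPoly ρ Λ N, ?_, ?_, ?_⟩
  · rw [peakPoly_eval, mul_zero]
    have : Complex.logTaylor (N + 1) 0 = 0 := by
      rw [Complex.logTaylor]
      refine Finset.sum_eq_zero (fun j _ => ?_)
      rcases Nat.eq_zero_or_pos j with rfl | hj
      · simp
      · rw [zero_pow (by omega)]; simp
    rw [this]; simp
  · intro z hz
    have h1 := hG z hz
    have h2 : ‖1 + Complex.log (1 + -(ρ : ℂ) * z) / Λ‖ ≤ 1 + ε / 2 := by
      set w : ℂ := 1 + -(ρ : ℂ) * z with hw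
      have hn : ‖-(ρ : ℂ) * z‖ = ρ := by
        rw [norm_mul, norm_neg, hz, mul_one, Complex.norm_real, Real.norm_eq_abs, abs_of_pos hρ0]
      have hwl : 1 - ρ ≤ ‖w‖ := by
        have := norm_sub_norm_le (1 : ℂ) (-(-(ρ : ℂ) * z))
        rw [norm_neg, hn, norm_one, sub_neg_eq_add] at this
        exact this
      have hwu : ‖w‖ ≤ 2 := by
        have := norm_add_le (1 : ℂ) (-(ρ : ℂ) * z)
        rw [hn, norm_one] at this
        linarith
      have hwpos : 0 < ‖w‖ := by linarith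
      have hl1 : -Λ ≤ Real.log ‖w‖ := by
        rw [← hlog]
        exact Real.log_le_log (by linarith) hwl
      have hl2 : Real.log ‖w‖ ≤ 1 := by
        have h := Real.log_le_sub_one_of_pos hwpos
        linarith
      have hre : (1 + Complex.log w / Λ).re = 1 + Real.log ‖w‖ / Λ := by
        rw [Complex.add_re, Complex.one_re, Complex.div_ofReal_re, Complex.log_re]
      have him : (1 + Complex.log w / Λ).im = w.arg / Λ := by
        rw [Complex.add_im, Complex.one_im, Complex.div_ofReal_im, Complex.log_im, zero_add]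
      have h3 : |(1 + Complex.log w / Λ).re| ≤ 1 + 1 / Λ := by
        rw [hre, abs_le]
        constructor
        · have : -1 ≤ Real.log ‖w‖ / Λ := by
            rw [le_div_iff₀ hΛ0]; linarith
          have : 0 ≤ 1 / Λ := by positivity
          linarith
        · have : Real.log ‖w‖ / Λ ≤ 1 / Λ := by gcongr
          linarith
      have h4 : |(1 + Complex.log w / Λ).im| ≤ 3.15 / Λ := by
        rw [him, abs_div, abs_of_pos hΛ0]
        have := Complex.abs_arg_le_pi w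
        have hpi : Real.pi < 3.15 := Real.pi_lt_d2
        gcongr
        linarith
      have h5 := Complex.norm_le_abs_re_add_abs_im (1 + Complex.log w / Λ)
      have h6 : 1 / Λ + 3.15 / Λ ≤ ε / 2 := by
        rw [← add_div, hΛ]
        rw [div_le_iff₀ (by positivity)]
        field_simp
        norm_num
      linarith
    have h3 : (peakPoly ρ Λ N).eval z = ((peakPoly ρ Λ N).eval z
        - (1 + Complex.log (1 + -(ρ : ℂ) * z) / Λ)) + (1 + Complex.log (1 + -(ρ : ℂ) * z) / Λ) := by ring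
    rw [h3]
    refine (norm_add_le _ _).trans ?_
    linarith
  · have h1 := hG 1 (by simp)
    have h2 : (1 + Complex.log (1 + -(ρ : ℂ) * 1) / Λ) = 0 := by
      have h3 : (1 + -(ρ : ℂ) * 1) = ((1 - ρ : ℝ) : ℂ) := by push_cast; ring
      rw [h3, ← Complex.ofReal_log (by linarith), hlog]
      push_cast
      have : (Λ : ℂ) ≠ 0 := by exact_mod_cast hΛ0.ne'
      field_simp
      ring
    rw [h2, sub_zero] at h1
    linarith

/-- Compactness: an increasing sequence of open sets with dense union eventually contains a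
translate of every pair of boxes. -/
theorem exists_uniform (W : ℕ → Set UnitAddCircle) (hopen : ∀ k, IsOpen (W k)) (hmono : Monotone W)
    (hdense : Dense (⋃ k, W k)) (R n : ℕ) :
    ∃ k, ∀ a b : Fin n → UnitAddCircle, ∃ x, ∀ m m' : Fin n → Fin R,
      x - ∑ i, ((m i : ℕ)) • a i - ∑ i, ((m' i : ℕ)) • b i ∈ W k := by
  set O : ℕ → Set ((Fin n → UnitAddCircle) × (Fin n → UnitAddCircle)) := fun k => {p : ((Fin n → UnitAddCircle) × (Fin n → UnitAddCircle)) | ∃ x, ∀ m m' : Fin n → Fin R,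
      x - ∑ i, ((m i : ℕ)) • p.1 i - ∑ i, ((m' i : ℕ)) • p.2 i ∈ W k} with hO
  have hOopen : ∀ k, IsOpen (O k) := by
    intro k
    have h1 : O k = Prod.fst '' {q : ((Fin n → UnitAddCircle) × (Fin n → UnitAddCircle)) × UnitAddCircle | ∀ m m' : Fin n → Fin R,
        q.2 - ∑ i, ((m i : ℕ)) • q.1.1 i - ∑ i, ((m' i : ℕ)) • q.1.2 i ∈ W k} := by
      ext p
      constructor
      · rintro ⟨x, hx⟩
        exact ⟨(p, x), hx, rfl⟩
      · rintro ⟨⟨p', x⟩, hx, rfl⟩
        exact ⟨x, hx⟩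
    rw [h1]
    apply isOpenMap_fst
    have h2 : {q : ((Fin n → UnitAddCircle) × (Fin n → UnitAddCircle)) × UnitAddCircle | ∀ m m' : Fin n → Fin R,
        q.2 - ∑ i, ((m i : ℕ)) • q.1.1 i - ∑ i, ((m' i : ℕ)) • q.1.2 i ∈ W k}
        = ⋂ m : Fin n → Fin R, ⋂ m' : Fin n → Fin R, {q : ((Fin n → UnitAddCircle) × (Fin n → UnitAddCircle)) × UnitAddCircle |
        q.2 - ∑ i, ((m i : ℕ)) • q.1.1 i - ∑ i, ((m' i : ℕ)) • q.1.2 i ∈ W k} := by
      ext q; simp only [Set.mem_ofPred_eq, Set.mem_iInter]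
    rw [h2]
    refine isOpen_iInter_of_finite (fun m => isOpen_iInter_of_finite (fun m' => ?_))
    refine (hopen k).preimage ?_
    fun_prop
  have hcover : (Set.univ : Set ((Fin n → UnitAddCircle) × (Fin n → UnitAddCircle))) ⊆ ⋃ k, O k := by
    intro p _
    have hd : Dense (⋂ q : (Fin n → Fin R) × (Fin n → Fin R), {x : UnitAddCircle |
        x - ∑ i, ((q.1 i : ℕ)) • p.1 i - ∑ i, ((q.2 i : ℕ)) • p.2 i ∈ ⋃ k, W k}) := by
      apply dense_iInter_of_isOpen
      · intro q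
        refine (isOpen_iUnion hopen).preimage ?_
        fun_prop
      · intro q
        set s : UnitAddCircle := ∑ i, ((q.1 i : ℕ)) • p.1 i + ∑ i, ((q.2 i : ℕ)) • p.2 i with hs
        have h3 : {x : UnitAddCircle |
            x - ∑ i, ((q.1 i : ℕ)) • p.1 i - ∑ i, ((q.2 i : ℕ)) • p.2 i ∈ ⋃ k, W k}
            = (Homeomorph.subRight s) ⁻¹' (⋃ k, W k) := by
          ext x
          simp only [Set.mem_ofPred_eq, Set.mem_preimage, Homeomorph.coe_subRight]
          rw [hs, sub_sub]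
        rw [h3]
        exact hdense.preimage (Homeomorph.subRight s).isOpenMap
    obtain ⟨x, hx⟩ := hd.nonempty
    rw [Set.mem_iInter] at hx
    have hx' : ∀ q : (Fin n → Fin R) × (Fin n → Fin R), ∃ k,
        x - ∑ i, ((q.1 i : ℕ)) • p.1 i - ∑ i, ((q.2 i : ℕ)) • p.2 i ∈ W k := by
      intro q
      exact Set.mem_iUnion.mp (hx q)
    choose κ hκ using hx'
    rw [Set.mem_iUnion]
    refine ⟨Finset.univ.sup κ, x, fun m m' => ?_⟩
    exact hmono (Finset.le_sup (f := κ) (Finset.mem_univ (m, m'))) (hκ (m, m'))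
  obtain ⟨k, hk⟩ := isCompact_univ.elim_directed_cover O hOopen hcover (by
    intro k l
    refine ⟨max k l, ?_, ?_⟩
    · rintro p ⟨x, hx⟩
      exact ⟨x, fun m m' => hmono (le_max_left k l) (hx m m')⟩
    · rintro p ⟨x, hx⟩
      exact ⟨x, fun m m' => hmono (le_max_right k l) (hx m m')⟩)
  exact ⟨k, fun a b => hk (Set.mem_univ (a, b))⟩

end Pool.Agent.Lib_helper87.Tilf
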